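import Pool.Agent.Work.MP_46fa68_18.MoP8
import Pool.Agent.Work.MP_46fa68_67.CrossU

/-!
# The cross function at the points `m1 = 20, 21`
-/

set_option autoImplicit false
set_option maxRecDepth 100000

namespace Pool.NW.CV

open Pool.NV Pool.NW Pool.OB Pool.JM Pool.JM.FR Pool.EGL

def GV : FD := Pool.NW.RV.FV

def D1 : FD := cst [350]

theorem cross_q {Q : DatQ} {m nC : ℕ} (hm : 2 ≤ m) (ha : Q.D.a = D1) (hk : Q.D.k = D1)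
    (hb : Q.D.b = GV) (hR : Q.D.R = []) (hrun : chkQ Q (rat 1 m) = true)
    (oA : okBudA Q D1 N3.a m nC (rat 1 m) = true) (oK : okBudA Q D1 N3.k m nC (rat 1 m) = true)
    (oB : okBudA Q GV N3.b m nC (rat 1 m) = true) : CrossU m := by
  intro k L b s B h hN
  have hx := mem_pt (show 0 < m by omega)
  have tc : ((m : ℕ) : ℤ) + D1.u = (m : ℤ) := by
    have : D1.u = 0 := rfl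
    omega
  have tv : ((m + 1 : ℕ) : ℤ) + GV.u = (m : ℤ) := by
    have : GV.u = -1 := rfl
    omega
  have Ha := budA_of (den := 100) oA (by norm_num) tc hx
  have Hk := budA_of (den := 100) oK (by norm_num) tc hx
  have Hb := budA_of (den := 100) oB (by norm_num) tv hx
  have hc := chkQ_sound (ta := m) (tk := m) (tb := m + 1) hrun (by omega)
    (show 0 < 100 by norm_num) hx (by rw [ha]; exact Ha) (by rw [hk]; exact Hk) (by rw [hb]; exact Hb)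
    h hN (by
      intro i1 i2 h1 h2
      rw [hR]
      rfl)
  rw [ha, hk, hb] at hc
  obtain ⟨-, -, c3⟩ := hc
  have e : fD D1 m m 100 (k + 2) B = 350 := by
    unfold D1
    rw [fD_cst]
    simp [pev]
  rw [e] at c3
  have h4 : |fD GV m (m + 1) 100 (k + 2) B| ≤ 350 := abs_le_of_sq_le_sq (by nlinarith) (by norm_num)
  unfold GV at h4
  rw [Pool.NW.RV.fD_V, abs_mul] at h4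
  have e1 : |((100 : ℝ))| = 100 := abs_of_pos (by norm_num)
  rw [e1] at h4
  linarith

def Q20D : Dat where
  a := D1
  k := D1
  b := GV
  o := 12
  n1 := 18
  J2 := [19, 19, 19, 19, 19, 19, 19, 19, 19, 19, 19, 19, 17, 17, 17, 17, 18, 20]
  bet := []
  lows := [⟨1, 1, 6676899900640⟩,
    ⟨1, 1, 6676899900640⟩,
    ⟨1, 1, 6676899900640⟩,
    ⟨1, 1, 6676899900640⟩,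
    ⟨1, 1, 6676899900640⟩,
    ⟨1, 1, 6676899900640⟩,
    ⟨1, 1, 6676899900640⟩,
    ⟨1, 1, 6676899900640⟩,
    ⟨1, 1, 6676899900640⟩,
    ⟨1, 1, 6676899900640⟩,
    ⟨1, 1, 6756175731890⟩,
    ⟨1, 1, 8324774026326⟩,
    ⟨1, 1, 12102477555992⟩]
  low := ⟨1, 1, 18535418040631⟩
  far := [⟨31, 31, 28252192708997⟩,
    ⟨31, 31, 28252192708997⟩,
    ⟨31, 31, 28252192708997⟩,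
    ⟨31, 31, 28252192708997⟩,
    ⟨31, 31, 28252192708997⟩,
    ⟨31, 31, 28252192708997⟩,
    ⟨31, 31, 28252192708997⟩,
    ⟨31, 31, 28252192708997⟩,
    ⟨31, 31, 28252192708997⟩,
    ⟨31, 31, 28252192708997⟩,
    ⟨31, 31, 28252192708997⟩,
    ⟨31, 31, 28252192708997⟩,
    ⟨31, 31, 104205801592175⟩,
    ⟨31, 31, 104205801592175⟩,
    ⟨31, 31, 104205801592175⟩,
    ⟨31, 31, 104205801592175⟩,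
    ⟨31, 31, 56243509490231⟩,
    ⟨31, 31, 13697808255550⟩]
  farn := ⟨1, 1, 2378521710334⟩
  deep := ⟨62, 62, 166676885250967⟩
  R := []

def Q20 : DatQ where
  D := Q20D
  pm := [[⟨0, 100, 100⟩, ⟨0, 100, 100⟩, ⟨0, 100, 100⟩, ⟨0, 100, 100⟩, ⟨0, 100, 100⟩, ⟨0, 100, 100⟩, ⟨0, 100, 100⟩, ⟨0, 100, 100⟩, ⟨0, 100, 100⟩, ⟨0, 100, 100⟩, ⟨0, 100, 100⟩, ⟨0, 100, 100⟩, ⟨0, 100, 100⟩, ⟨0, 100, 100⟩, ⟨0, 100, 100⟩, ⟨0, 100, 100⟩, ⟨0, 100, 100⟩, ⟨0, 100, 100⟩, ⟨0, 100, 100⟩],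
    [⟨0, 100, 100⟩, ⟨0, 100, 100⟩, ⟨0, 100, 100⟩, ⟨0, 100, 100⟩, ⟨0, 100, 100⟩, ⟨0, 100, 100⟩, ⟨0, 100, 100⟩, ⟨0, 100, 100⟩, ⟨0, 100, 100⟩, ⟨0, 100, 100⟩, ⟨0, 100, 100⟩, ⟨0, 100, 100⟩, ⟨0, 100, 100⟩, ⟨0, 100, 100⟩, ⟨0, 100, 100⟩, ⟨0, 100, 100⟩, ⟨0, 100, 100⟩, ⟨0, 100, 100⟩],
    [⟨0, 100, 100⟩, ⟨0, 100, 100⟩, ⟨0, 100, 100⟩, ⟨0, 100, 100⟩, ⟨0, 100, 100⟩, ⟨0, 100, 100⟩, ⟨0, 100, 100⟩, ⟨0, 100, 100⟩, ⟨0, 100, 100⟩, ⟨0, 100, 100⟩, ⟨0, 100, 100⟩, ⟨0, 100, 100⟩, ⟨0, 100, 100⟩, ⟨0, 100, 100⟩, ⟨0, 100, 100⟩, ⟨0, 100, 100⟩, ⟨0, 100, 100⟩],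
    [⟨0, 100, 100⟩, ⟨0, 100, 100⟩, ⟨0, 100, 100⟩, ⟨0, 100, 100⟩, ⟨0, 100, 100⟩, ⟨0, 100, 100⟩, ⟨0, 100, 100⟩, ⟨0, 100, 100⟩, ⟨0, 100, 100⟩, ⟨0, 100, 100⟩, ⟨0, 100, 100⟩, ⟨0, 100, 100⟩, ⟨0, 100, 100⟩, ⟨0, 100, 100⟩, ⟨0, 100, 100⟩, ⟨0, 100, 100⟩],
    [⟨0, 100, 100⟩, ⟨0, 100, 100⟩, ⟨0, 100, 100⟩, ⟨0, 100, 100⟩, ⟨0, 100, 100⟩, ⟨0, 100, 100⟩, ⟨0, 100, 100⟩, ⟨0, 100, 100⟩, ⟨0, 100, 100⟩, ⟨0, 100, 100⟩, ⟨0, 100, 100⟩, ⟨0, 100, 100⟩, ⟨0, 100, 100⟩, ⟨0, 100, 100⟩, ⟨0, 100, 100⟩],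
    [⟨0, 100, 100⟩, ⟨0, 100, 100⟩, ⟨0, 100, 100⟩, ⟨0, 100, 100⟩, ⟨0, 100, 100⟩, ⟨0, 100, 100⟩, ⟨0, 100, 100⟩, ⟨0, 100, 100⟩, ⟨0, 100, 100⟩, ⟨0, 100, 100⟩, ⟨0, 100, 100⟩, ⟨0, 100, 100⟩, ⟨0, 100, 100⟩, ⟨0, 100, 100⟩],
    [⟨0, 100, 100⟩, ⟨0, 100, 100⟩, ⟨0, 100, 100⟩, ⟨0, 100, 100⟩, ⟨0, 100, 100⟩, ⟨0, 100, 100⟩, ⟨0, 100, 100⟩, ⟨0, 100, 100⟩, ⟨0, 100, 100⟩, ⟨0, 100, 100⟩, ⟨0, 100, 100⟩, ⟨0, 100, 100⟩, ⟨0, 101, 100⟩],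
    [⟨0, 100, 100⟩, ⟨0, 100, 100⟩, ⟨0, 100, 100⟩, ⟨0, 100, 100⟩, ⟨0, 100, 100⟩, ⟨0, 100, 100⟩, ⟨0, 100, 100⟩, ⟨0, 100, 100⟩, ⟨0, 100, 100⟩, ⟨0, 100, 100⟩, ⟨0, 101, 100⟩, ⟨0, 101, 101⟩],
    [⟨0, 100, 100⟩, ⟨0, 100, 100⟩, ⟨0, 100, 100⟩, ⟨0, 100, 100⟩, ⟨0, 100, 100⟩, ⟨0, 100, 100⟩, ⟨0, 100, 100⟩, ⟨0, 100, 100⟩, ⟨0, 101, 100⟩, ⟨0, 101, 101⟩, ⟨0, 101, 102⟩],
    [⟨0, 100, 100⟩, ⟨0, 100, 100⟩, ⟨0, 100, 100⟩, ⟨0, 100, 100⟩, ⟨0, 100, 100⟩, ⟨0, 100, 100⟩, ⟨0, 101, 100⟩, ⟨0, 101, 101⟩, ⟨0, 101, 101⟩, ⟨0, 101, 102⟩],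
    [⟨0, 100, 100⟩, ⟨0, 100, 100⟩, ⟨0, 100, 100⟩, ⟨0, 100, 100⟩, ⟨0, 101, 100⟩, ⟨0, 101, 101⟩, ⟨0, 101, 101⟩, ⟨0, 101, 102⟩, ⟨0, 101, 103⟩],
    [⟨0, 100, 100⟩, ⟨0, 100, 100⟩, ⟨0, 101, 100⟩, ⟨0, 101, 101⟩, ⟨0, 101, 101⟩, ⟨0, 101, 102⟩, ⟨0, 101, 103⟩, ⟨0, 102, 104⟩],
    [⟨0, 101, 100⟩, ⟨0, 101, 101⟩, ⟨0, 101, 101⟩, ⟨0, 101, 102⟩, ⟨0, 101, 102⟩],
    [⟨0, 101, 101⟩, ⟨0, 101, 101⟩, ⟨0, 102, 102⟩, ⟨0, 102, 103⟩],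
    [⟨0, 102, 102⟩, ⟨0, 102, 103⟩, ⟨0, 103, 104⟩],
    [⟨0, 103, 100⟩, ⟨0, 104, 105⟩],
    [⟨0, 105, 100⟩, ⟨0, 106, 109⟩],
    [⟨0, 109, 100⟩, ⟨0, 112, 100⟩, ⟨0, 116, 100⟩]]
  fo := 20
  f2 := []
  rb := [103, 104, 104, 104, 104, 104, 104, 104, 104, 105, 105, 105, 105, 105, 108, 112, 116, 117]
  dro := 18
  dr := []

theorem run20 : chkQ Q20 (rat 1 20) = true := by decide +kernel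

theorem ca20 : okBudA Q20 D1 N3.a 20 16 (rat 1 20) = true := by decide +kernel

theorem ck20 : okBudA Q20 D1 N3.k 20 16 (rat 1 20) = true := by decide +kernel

theorem cb20 : okBudA Q20 GV N3.b 20 16 (rat 1 20) = true := by decide +kernel

theorem cross20 : CrossU 20 :=
  cross_q (by norm_num) rfl rfl rfl rfl run20 ca20 ck20 cb20

def Q21D : Dat where
  a := D1
  k := D1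
  b := GV
  o := 12
  n1 := 18
  J2 := [19, 19, 19, 19, 19, 19, 19, 19, 19, 19, 19, 19, 17, 17, 17, 17, 18, 19]
  bet := []
  lows := [⟨1, 1, 1502163796048⟩,
    ⟨1, 1, 1502163796048⟩,
    ⟨1, 1, 1502163796048⟩,
    ⟨1, 1, 1502163796048⟩,
    ⟨1, 1, 1502163796048⟩,
    ⟨1, 1, 1502163796048⟩,
    ⟨1, 1, 1502163796048⟩,
    ⟨1, 1, 1502163796048⟩,
    ⟨1, 1, 1502163796048⟩,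
    ⟨1, 1, 1502163796048⟩,
    ⟨1, 1, 1662593447716⟩,
    ⟨1, 1, 2320916338254⟩]
  low := ⟨1, 1, 11640055500338⟩
  far := [⟨31, 31, 23026105753066⟩,
    ⟨31, 31, 23026105753066⟩,
    ⟨31, 31, 23026105753066⟩,
    ⟨31, 31, 23026105753066⟩,
    ⟨31, 31, 23026105753066⟩,
    ⟨31, 31, 23026105753066⟩,
    ⟨31, 31, 23026105753066⟩,
    ⟨31, 31, 23026105753066⟩,
    ⟨31, 31, 23026105753066⟩,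
    ⟨31, 31, 23026105753066⟩,
    ⟨31, 31, 23026105753066⟩,
    ⟨31, 31, 23026105753066⟩,
    ⟨31, 31, 93313201293256⟩,
    ⟨31, 31, 93313201293256⟩,
    ⟨31, 31, 93313201293256⟩,
    ⟨31, 31, 93313201293256⟩,
    ⟨31, 31, 48195791396804⟩,
    ⟨31, 31, 23026105753066⟩]
  farn := ⟨1, 1, 715949347842⟩
  deep := ⟨62, 62, 148121977871340⟩
  R := []

def Q21 : DatQ where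
  D := Q21D
  pm := [[⟨0, 100, 100⟩, ⟨0, 100, 100⟩, ⟨0, 100, 100⟩, ⟨0, 100, 100⟩, ⟨0, 100, 100⟩, ⟨0, 100, 100⟩, ⟨0, 100, 100⟩, ⟨0, 100, 100⟩, ⟨0, 100, 100⟩, ⟨0, 100, 100⟩, ⟨0, 100, 100⟩, ⟨0, 100, 100⟩, ⟨0, 100, 100⟩, ⟨0, 100, 100⟩, ⟨0, 100, 100⟩, ⟨0, 100, 100⟩, ⟨0, 100, 100⟩, ⟨0, 100, 100⟩, ⟨0, 100, 100⟩],
    [⟨0, 100, 100⟩, ⟨0, 100, 100⟩, ⟨0, 100, 100⟩, ⟨0, 100, 100⟩, ⟨0, 100, 100⟩, ⟨0, 100, 100⟩, ⟨0, 100, 100⟩, ⟨0, 100, 100⟩, ⟨0, 100, 100⟩, ⟨0, 100, 100⟩, ⟨0, 100, 100⟩, ⟨0, 100, 100⟩, ⟨0, 100, 100⟩, ⟨0, 100, 100⟩, ⟨0, 100, 100⟩, ⟨0, 100, 100⟩, ⟨0, 100, 100⟩, ⟨0, 100, 100⟩],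
    [⟨0, 100, 100⟩, ⟨0, 100, 100⟩, ⟨0, 100, 100⟩, ⟨0, 100, 100⟩, ⟨0, 100, 100⟩, ⟨0, 100, 100⟩, ⟨0, 100, 100⟩, ⟨0, 100, 100⟩, ⟨0, 100, 100⟩, ⟨0, 100, 100⟩, ⟨0, 100, 100⟩, ⟨0, 100, 100⟩, ⟨0, 100, 100⟩, ⟨0, 100, 100⟩, ⟨0, 100, 100⟩, ⟨0, 100, 100⟩, ⟨0, 100, 100⟩],
    [⟨0, 100, 100⟩, ⟨0, 100, 100⟩, ⟨0, 100, 100⟩, ⟨0, 100, 100⟩, ⟨0, 100, 100⟩, ⟨0, 100, 100⟩, ⟨0, 100, 100⟩, ⟨0, 100, 100⟩, ⟨0, 100, 100⟩, ⟨0, 100, 100⟩, ⟨0, 100, 100⟩, ⟨0, 100, 100⟩, ⟨0, 100, 100⟩, ⟨0, 100, 100⟩, ⟨0, 100, 100⟩, ⟨0, 100, 100⟩],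
    [⟨0, 100, 100⟩, ⟨0, 100, 100⟩, ⟨0, 100, 100⟩, ⟨0, 100, 100⟩, ⟨0, 100, 100⟩, ⟨0, 100, 100⟩, ⟨0, 100, 100⟩, ⟨0, 100, 100⟩, ⟨0, 100, 100⟩, ⟨0, 100, 100⟩, ⟨0, 100, 100⟩, ⟨0, 100, 100⟩, ⟨0, 100, 100⟩, ⟨0, 100, 100⟩, ⟨0, 100, 100⟩],
    [⟨0, 100, 100⟩, ⟨0, 100, 100⟩, ⟨0, 100, 100⟩, ⟨0, 100, 100⟩, ⟨0, 100, 100⟩, ⟨0, 100, 100⟩, ⟨0, 100, 100⟩, ⟨0, 100, 100⟩, ⟨0, 100, 100⟩, ⟨0, 100, 100⟩, ⟨0, 100, 100⟩, ⟨0, 100, 100⟩, ⟨0, 100, 100⟩, ⟨0, 100, 100⟩],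
    [⟨0, 100, 100⟩, ⟨0, 100, 100⟩, ⟨0, 100, 100⟩, ⟨0, 100, 100⟩, ⟨0, 100, 100⟩, ⟨0, 100, 100⟩, ⟨0, 100, 100⟩, ⟨0, 100, 100⟩, ⟨0, 100, 100⟩, ⟨0, 100, 100⟩, ⟨0, 100, 100⟩, ⟨0, 100, 100⟩, ⟨0, 101, 100⟩],
    [⟨0, 100, 100⟩, ⟨0, 100, 100⟩, ⟨0, 100, 100⟩, ⟨0, 100, 100⟩, ⟨0, 100, 100⟩, ⟨0, 100, 100⟩, ⟨0, 100, 100⟩, ⟨0, 100, 100⟩, ⟨0, 100, 100⟩, ⟨0, 100, 100⟩, ⟨0, 101, 100⟩, ⟨0, 101, 101⟩],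
    [⟨0, 100, 100⟩, ⟨0, 100, 100⟩, ⟨0, 100, 100⟩, ⟨0, 100, 100⟩, ⟨0, 100, 100⟩, ⟨0, 100, 100⟩, ⟨0, 100, 100⟩, ⟨0, 100, 100⟩, ⟨0, 101, 100⟩, ⟨0, 101, 101⟩, ⟨0, 101, 101⟩],
    [⟨0, 100, 100⟩, ⟨0, 100, 100⟩, ⟨0, 100, 100⟩, ⟨0, 100, 100⟩, ⟨0, 100, 100⟩, ⟨0, 100, 100⟩, ⟨0, 101, 100⟩, ⟨0, 101, 101⟩, ⟨0, 101, 101⟩, ⟨0, 101, 102⟩],
    [⟨0, 100, 100⟩, ⟨0, 100, 100⟩, ⟨0, 100, 100⟩, ⟨0, 100, 100⟩, ⟨0, 101, 100⟩, ⟨0, 101, 101⟩, ⟨0, 101, 101⟩, ⟨0, 101, 102⟩, ⟨0, 101, 103⟩],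
    [⟨0, 100, 100⟩, ⟨0, 100, 100⟩, ⟨0, 101, 100⟩, ⟨0, 101, 101⟩, ⟨0, 101, 101⟩, ⟨0, 101, 102⟩, ⟨0, 101, 102⟩, ⟨0, 102, 103⟩],
    [⟨0, 101, 100⟩, ⟨0, 101, 101⟩, ⟨0, 101, 101⟩, ⟨0, 101, 101⟩, ⟨0, 101, 102⟩],
    [⟨0, 101, 101⟩, ⟨0, 101, 101⟩, ⟨0, 101, 102⟩, ⟨0, 102, 103⟩],
    [⟨0, 102, 102⟩, ⟨0, 102, 102⟩, ⟨0, 102, 103⟩],
    [⟨0, 103, 100⟩, ⟨0, 103, 104⟩],
    [⟨0, 104, 100⟩, ⟨0, 105, 107⟩],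
    [⟨0, 108, 100⟩, ⟨0, 110, 100⟩]]
  fo := 20
  f2 := []
  rb := [103, 103, 104, 104, 104, 104, 104, 104, 104, 104, 105, 105, 105, 105, 107, 111, 115, 119]
  dro := 18
  dr := []

theorem run21 : chkQ Q21 (rat 1 21) = true := by decide +kernel

theorem ca21 : okBudA Q21 D1 N3.a 21 16 (rat 1 21) = true := by decide +kernel

theorem ck21 : okBudA Q21 D1 N3.k 21 16 (rat 1 21) = true := by decide +kernel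

theorem cb21 : okBudA Q21 GV N3.b 21 16 (rat 1 21) = true := by decide +kernel

theorem cross21 : CrossU 21 :=
  cross_q (by norm_num) rfl rfl rfl rfl run21 ca21 ck21 cb21

end Pool.NW.CV
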