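import Pool.Agent.Work.MP_46fa68_36.LargeD
import Pool.Agent.Work.MP_46fa68_18.PS21
import Pool.Agent.Work.MP_46fa68_18.PS21C
import Pool.Agent.Work.MP_46fa68_18.CV

/-!
# MP_46fa68_co: `Holds 43 21` (`m = 22`), from the triple D (helper18)
-/

set_option autoImplicit false

namespace Pool.EGD

open Pool.JM Pool.JM.Rare Pool.OS Pool.OB Pool.TW Pool.TW.H27 Pool.TW.H82 Pool.EG Pool.NV Pool.NW

/-- **`m = 22`**: the balanced case `n = 43`, given the cases beyond the balanced range -/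
theorem holds_m22 (hK : ∀ n' t' : ℕ, 2 * t' + 3 ≤ n' → Holds n' t') : Holds (2 * 21 + 1) 21 :=
  holdsD_21 (fun _ _ _ _ _ h hN hn => Pool.NW.PS21.main h hN hn) Pool.NW.CV.cross21
    (fun _ _ _ _ _ h hN _ => Pool.NW.PS21C.crude h hN) hK

end Pool.EGD
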