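import Pool.Agent.Work.MP_46fa68_23.Mo6

/-!
# The checker for one point: growth factor per pair, third mode of row one, row two by a budget (definitions)

Modes of a pair: 0 `tP` (helper23), 1 `tZ` (row one to order zero in the rows `≥ 3`), 2 `tQ` (row one as in 1, row two
by a budget).  Modes of the rest of a row: 0 `tF` (helper23), 1 `tD` with budgets for both rows.
-/

set_option autoImplicit false

namespace Pool.NW

open Pool.NV

/-- conditions of row one, third mode -/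
def okZ (X : NI) (j1 : ℤ) (s : ℕ) : Bool :=
  Nat.ble 1 (lin (2 - j1) X).lo && Nat.ble 1 (lin (2 - j1 - s) X).lo

/-- conditions of row two -/
def okR2 (X : NI) (j2 : ℤ) (s : ℕ) : Bool :=
  Nat.ble 1 (lin (2 - j2) X).lo && (Nat.ble 1 (lin (2 - j2 - s) X).lo && Nat.ble 1 (lin (1 - j2) X).lo)

/-- coefficients of row two only -/
def par2 (X : NI) (j2 : ℤ) (s b2 : ℕ) : Par :=
  if Nat.ble ((S + epP X j2 s) * 100) (b2 * S) then
    ⟨0, 0, 0, epP X j2 s, 0, 0, epP X j2 s * (max (epP X j2 s) (iv (2 - j2) X).hi) / S + 1⟩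
  else ⟨0, 0, 0, 0, 0, epP X j2 s, 0⟩

/-- error of row one, third mode (`epP X j1 s` bounds `s / ((L+2-s) (L+2))`) -/
def erZ (F : FD) (X : NI) (j1 : ℤ) (D s : ℕ) : ℕ :=
  epP X j1 s * ((LV F X j1 100).b1 + (((LV F X j1 100).b1 / D + 1) + ((LV F X j1 100).b2 / D + 1))) / S + 1

/-- pair class, row one in the third mode -/
def tZ (Fa Fk Fb : FD) (X : NI) (j1 j2 : ℤ) (D s b2 : ℕ) (lo : N3) : Bool :=
  (okZ X j1 s && okR2 X j2 s) &&
  ((LVt Fa X j1 100 && (LVt Fa X j2 b2 && (LVt Fk X j1 100 && (LVt Fk X j2 b2 &&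
    (LVt Fb X j1 100 && LVt Fb X j2 b2))))) &&
  box ⟨vP Fa X j1 j2 100 b2 D, vP Fk X j1 j2 100 b2 D, vP Fb X j1 j2 100 b2 D⟩ zero3 zero3
    ⟨wP3 Fa X j2 b2 D (par2 X j2 s b2), wP3 Fk X j2 b2 D (par2 X j2 s b2), wP3 Fb X j2 b2 D (par2 X j2 s b2)⟩
    ⟨erP Fa X j1 j2 100 b2 D (par2 X j2 s b2) + (erZ Fa X j1 D s + lo.a),
      erP Fk X j1 j2 100 b2 D (par2 X j2 s b2) + (erZ Fk X j1 D s + lo.k),
      erP Fb X j1 j2 100 b2 D (par2 X j2 s b2) + (erZ Fb X j1 D s + lo.b)⟩)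

/-- value of row one at `d = 0` order in the rows `≥ 3` -/
def vQ (F : FD) (X : NI) (j1 : ℤ) (D : ℕ) : PN :=
  addS (pevI F.c0 X) (addS (LV F X j1 100).f0 (sdivS (LV F X j1 100).f1 D))

/-- pair class, row one in the third mode, row two by the budget `fr` -/
def tQ (Fa Fk Fb : FD) (X : NI) (j1 : ℤ) (D s : ℕ) (lo fr : N3) : Bool :=
  okZ X j1 s && ((LVt Fa X j1 100 && (LVt Fk X j1 100 && LVt Fb X j1 100)) &&
  tst ⟨vQ Fa X j1 D, vQ Fk X j1 D, vQ Fb X j1 D⟩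
    ⟨erZ Fa X j1 D s + (lo.a + fr.a), erZ Fk X j1 D s + (lo.k + fr.k), erZ Fb X j1 D s + (lo.b + fr.b)⟩)

/-- mode of a pair -/
structure Md where
  md : ℕ
  b1 : ℕ
  b2 : ℕ

/-- the data of a run at a point -/
structure DatQ where
  D : Dat
  /-- modes of the pairs, row `i1`, entry `i2 - i1 - 1` -/
  pm : List (List Md)
  /-- row two in the layer of index `fo + n` -/
  fo : ℕ
  f2 : List N3
  /-- growth factor of the rest of a row -/
  rb : List ℕ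
  /-- the rests of the rows `≥ dro` by budgets: row one in the layer of index `i1 = dro + n`, row two in a layer of
  index `> J2` -/
  dro : ℕ
  dr : List N3

/-- mode of a pair -/
def DatQ.md (Q : DatQ) (i1 i2 : ℕ) : Md := (Q.pm.getD i1 []).getD (i2 - i1 - 1) ⟨0, 100, 100⟩

/-- one pair -/
def chkPQ (Q : DatQ) (X : NI) (i1 i2 : ℕ) : Bool :=
  Nat.ble i2 i1 || (Nat.ble (i1 + i2) (2 * Q.D.o) || (memR Q.D.R i1 i2 ||
    (bif Nat.beq (Q.md i1 i2).md 0 then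
      tP Q.D.a Q.D.k Q.D.b X (jj Q.D.o i1) (jj Q.D.o i2) (i2 - i1) (i1 + i2 - 2 * Q.D.o - 1)
        (Q.md i1 i2).b1 (Q.md i1 i2).b2 (Q.D.lows.getD (i1 + i2 - 2 * Q.D.o - 1) Q.D.low)
    else bif Nat.beq (Q.md i1 i2).md 1 then
      tZ Q.D.a Q.D.k Q.D.b X (jj Q.D.o i1) (jj Q.D.o i2) (i2 - i1) (i1 + i2 - 2 * Q.D.o - 1)
        (Q.md i1 i2).b2 (Q.D.lows.getD (i1 + i2 - 2 * Q.D.o - 1) Q.D.low)
    else
      ((Nat.ble Q.fo i2 && Nat.ble (i2 + 1) (Q.fo + Q.f2.length)) &&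
      tQ Q.D.a Q.D.k Q.D.b X (jj Q.D.o i1) (i2 - i1) (i1 + i2 - 2 * Q.D.o - 1)
        (Q.D.lows.getD (i1 + i2 - 2 * Q.D.o - 1) Q.D.low) (Q.f2.getD (i2 - Q.fo) z3)))))

/-- one row -/
def chkRowQ (Q : DatQ) (X : NI) (i1 : ℕ) : Bool :=
  ((List.range (Q.D.J2.getD i1 0 + 1)).all fun i2 => chkPQ Q X i1 i2) &&
  (bif Nat.ble Q.dro i1 then
    (Nat.ble (i1 + 1) (Q.dro + Q.dr.length) &&
      tD Q.D.a Q.D.k Q.D.b X Q.D.low (Q.dr.getD (i1 - Q.dro) z3))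
  else
    tF Q.D.a Q.D.k Q.D.b X (jj Q.D.o i1) (Q.D.J2.getD i1 0 + 1 - i1) (Q.rb.getD i1 100)
      Q.D.low (Q.D.far.getD i1 z3))

def chkQ (Q : DatQ) (X : NI) : Bool :=
  chkEnd Q.D X && (List.range Q.D.n1).all fun i1 => chkRowQ Q X i1

end Pool.NW
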