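import Pool.Agent.Work.MP_46fa68_18.MoP1
import Pool.Agent.Work.MP_46fa68_23.Mo8c

/-!
# The tests `tP`, `tF`, `tD` are sound, one by one
-/

set_option autoImplicit false

open Finset

namespace Pool.NW

open Pool.NV Pool.OB Pool.JM

/-- lifts -/
def Lf (F : FD) (m t : ℕ) : Prop := (t : ℤ) + F.u = m ∧ 1 ≤ t

/-- the cone at a set `B` -/
def Cone (Fa Fk Fb : FD) (m ta tk tb den K : ℕ) (B : Finset ℕ) : Prop :=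
  0 ≤ fD Fa m ta den K B ∧ 0 ≤ fD Fk m tk den K B ∧
    fD Fb m tb den K B ^ 2 ≤ fD Fa m ta den K B * fD Fk m tk den K B

/-- the error of the rows `≥ 3` is at most `lo` -/
def LoOk (Fa Fk Fb : FD) (m ta tk tb den k b : ℕ) (B : Finset ℕ) (lo : N3) : Prop :=
  |lD Fa m ta den (k + 2) B (k + b)| * (S : ℕ) ≤ (lo.a : ℝ) ∧
    |lD Fk m tk den (k + 2) B (k + b)| * (S : ℕ) ≤ (lo.k : ℝ) ∧
    |lD Fb m tb den (k + 2) B (k + b)| * (S : ℕ) ≤ (lo.b : ℝ)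

/-- the bead `x` contributes at most `fr` -/
def XOk (Fa Fk Fb : FD) (m ta tk tb den k x : ℕ) (B : Finset ℕ) (fr : N3) : Prop :=
  |xD Fa m ta den (k + 2) B x| * (S : ℕ) ≤ (fr.a : ℝ) ∧
    |xD Fk m tk den (k + 2) B x| * (S : ℕ) ≤ (fr.k : ℝ) ∧
    |xD Fb m tb den (k + 2) B x| * (S : ℕ) ≤ (fr.b : ℝ)

/-- the two top beads contribute at most `dp` together -/
def DOk (Fa Fk Fb : FD) (m ta tk tb den k L b : ℕ) (B : Finset ℕ) (dp : N3) : Prop :=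
  (|xD Fa m ta den (k + 2) B (k + 1 + L)| + |xD Fa m ta den (k + 2) B (k + b)|) * (S : ℕ) ≤ (dp.a : ℝ) ∧
  (|xD Fk m tk den (k + 2) B (k + 1 + L)| + |xD Fk m tk den (k + 2) B (k + b)|) * (S : ℕ) ≤ (dp.k : ℝ) ∧
  (|xD Fb m tb den (k + 2) B (k + 1 + L)| + |xD Fb m tb den (k + 2) B (k + b)|) * (S : ℕ) ≤ (dp.b : ℝ)

section

variable {Fa Fk Fb : FD} {X : NI} {m den ta tk tb k L b s : ℕ} {B : Finset ℕ}

theorem tP_sound {b1 b2 : ℕ} {lo : N3} (hm : 0 < m) (hden : 0 < den) (hx : Mem (1 / (m : ℝ)) X)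
    (La : Lf Fa m ta) (Lk : Lf Fk m tk) (Lb : Lf Fb m tb) (h : Two k L b s B) (hN : L + b + s = 2 * m)
    (hp : tP Fa Fk Fb X ((m : ℤ) - L) ((m : ℤ) + 1 - b) (L + 1 - b) s b1 b2 lo = true)
    (hlo : LoOk Fa Fk Fb m ta tk tb den k b B lo) : Cone Fa Fk Fb m ta tk tb den (k + 2) B := by
  have hbL := h.hbL
  obtain ⟨hok, ⟨a1, a2, k1, k2, b1', b2'⟩, hbox⟩ := tP_spec hp
  have hD0 : 0 < L + 1 - b := by omega
  obtain ⟨x1, x2, x3, hx1, hx2, hx3, hall⟩ := pair_rows (b2 := b2) hm hx h hN rfl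
    (lvt_spec a2).2.2.1 (lvt_spec a2).2.1 (lvt_spec a1).2.1 hok
  have hRa1 := Rng_of hx (lvt_spec a1).1
  have hRa2 := Rng_of hx (lvt_spec a2).1
  have hRk1 := Rng_of hx (lvt_spec k1).1
  have hRk2 := Rng_of hx (lvt_spec k2).1
  have hRb1 := Rng_of hx (lvt_spec b1').1
  have hRb2 := Rng_of hx (lvt_spec b2').1
  have ra := pair_fun hx hD0 h a1 a2 (hall Fa.cf ta den Fa.u La.1 La.2 hden (lvt_spec a1).2.2.2 hRa1 hRa2)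
    hlo.1
  have rk := pair_fun hx hD0 h k1 k2 (hall Fk.cf tk den Fk.u Lk.1 Lk.2 hden (lvt_spec k1).2.2.2 hRk1 hRk2)
    hlo.2.1
  have rb := pair_fun hx hD0 h b1' b2' (hall Fb.cf tb den Fb.u Lb.1 Lb.2 hden (lvt_spec b1').2.2.2 hRb1 hRb2)
    hlo.2.2
  exact box_sound hbox (v := ⟨cP Fa (1 / m) ((m : ℤ) - L) ((m : ℤ) + 1 - b) (L + 1 - b),
      cP Fk (1 / m) ((m : ℤ) - L) ((m : ℤ) + 1 - b) (L + 1 - b),
      cP Fb (1 / m) ((m : ℤ) - L) ((m : ℤ) + 1 - b) (L + 1 - b)⟩)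
    (w1 := ⟨g1P Fa (1 / m) ((m : ℤ) - L) _, g1P Fk (1 / m) ((m : ℤ) - L) _,
      g1P Fb (1 / m) ((m : ℤ) - L) _⟩)
    (w2 := ⟨g2P Fa (1 / m) ((m : ℤ) - L) _, g2P Fk (1 / m) ((m : ℤ) - L) _,
      g2P Fb (1 / m) ((m : ℤ) - L) _⟩)
    (w3 := ⟨g3P Fa (1 / m) ((m : ℤ) + 1 - b) (L + 1 - b) _, g3P Fk (1 / m) ((m : ℤ) + 1 - b) (L + 1 - b) _,
      g3P Fb (1 / m) ((m : ℤ) + 1 - b) (L + 1 - b) _⟩)
    ⟨mem_vP hx hD0 a1 a2, mem_vP hx hD0 k1 k2, mem_vP hx hD0 b1' b2'⟩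
    ⟨mem_wP1 hx a1, mem_wP1 hx k1, mem_wP1 hx b1'⟩
    ⟨mem_wP2 hx a1, mem_wP2 hx k1, mem_wP2 hx b1'⟩
    ⟨mem_wP3 hx hD0 a2, mem_wP3 hx hD0 k2, mem_wP3 hx hD0 b2'⟩ hx1 hx2 hx3
    (F := ⟨fD Fa m ta den (k + 2) B, fD Fk m tk den (k + 2) B, fD Fb m tb den (k + 2) B⟩) ra rk rb

theorem tF_sound {D0 b1 : ℕ} {lo fr : N3} (hm : 0 < m) (hden : 0 < den) (hx : Mem (1 / (m : ℝ)) X)
    (La : Lf Fa m ta) (Lk : Lf Fk m tk) (Lb : Lf Fb m tb) (h : Two k L b s B) (hN : L + b + s = 2 * m)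
    (hDD : D0 ≤ L + 1 - b) (hfar : tF Fa Fk Fb X ((m : ℤ) - L) D0 b1 lo fr = true)
    (hlo : LoOk Fa Fk Fb m ta tk tb den k b B lo) (hfr : XOk Fa Fk Fb m ta tk tb den k (k + b) B fr) :
    Cone Fa Fk Fb m ta tk tb den (k + 2) B := by
  obtain ⟨hok, ⟨a1, k1, b1'⟩, hbox⟩ := tF_spec hfar
  obtain ⟨x1, x2, hx1, hx2, hall⟩ := far_row hm hx h hN hDD (lvt_spec a1).2.1 hok
  have hRa1 := Rng_of hx (lvt_spec a1).1
  have hRk1 := Rng_of hx (lvt_spec k1).1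
  have hRb1 := Rng_of hx (lvt_spec b1').1
  have ra := far_fun (x3 := 0) hx h a1
    (hall Fa.cf ta den Fa.u La.1 La.2 hden (lvt_spec a1).2.2.2 hRa1) hlo.1 hfr.1
  have rk := far_fun (x3 := 0) hx h k1
    (hall Fk.cf tk den Fk.u Lk.1 Lk.2 hden (lvt_spec k1).2.2.2 hRk1) hlo.2.1 hfr.2.1
  have rb := far_fun (x3 := 0) hx h b1'
    (hall Fb.cf tb den Fb.u Lb.1 Lb.2 hden (lvt_spec b1').2.2.2 hRb1) hlo.2.2 hfr.2.2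
  exact box_sound hbox (v := ⟨cF Fa (1 / m) ((m : ℤ) - L) _, cF Fk (1 / m) ((m : ℤ) - L) _,
      cF Fb (1 / m) ((m : ℤ) - L) _⟩)
    (w1 := ⟨g1P Fa (1 / m) ((m : ℤ) - L) _, g1P Fk (1 / m) ((m : ℤ) - L) _,
      g1P Fb (1 / m) ((m : ℤ) - L) _⟩)
    (w2 := ⟨g2P Fa (1 / m) ((m : ℤ) - L) _, g2P Fk (1 / m) ((m : ℤ) - L) _,
      g2P Fb (1 / m) ((m : ℤ) - L) _⟩)
    (w3 := ⟨0, 0, 0⟩)
    ⟨mem_vF hx a1, mem_vF hx k1, mem_vF hx b1'⟩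
    ⟨mem_wP1 hx a1, mem_wP1 hx k1, mem_wP1 hx b1'⟩
    ⟨mem_wP2 hx a1, mem_wP2 hx k1, mem_wP2 hx b1'⟩
    ⟨memS_zero, memS_zero, memS_zero⟩ hx1 hx2 (x3 := 0) ⟨le_rfl, by norm_num⟩
    (F := ⟨fD Fa m ta den (k + 2) B, fD Fk m tk den (k + 2) B, fD Fb m tb den (k + 2) B⟩) ra rk rb

theorem tD_sound {lo dp : N3} (hx : Mem (1 / (m : ℝ)) X) (h : Two k L b s B)
    (hD : tD Fa Fk Fb X lo dp = true) (hlo : LoOk Fa Fk Fb m ta tk tb den k b B lo)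
    (hdp : DOk Fa Fk Fb m ta tk tb den k L b B dp) : Cone Fa Fk Fb m ta tk tb den (k + 2) B := by
  unfold tD at hD
  have hcone := Rc_of_tst (v := ⟨pev Fa.c0 (1 / m), pev Fk.c0 (1 / m), pev Fb.c0 (1 / m)⟩)
    ⟨memS_pev hx _, memS_pev hx _, memS_pev hx _⟩ hD
  exact hcone.cone (F := ⟨fD Fa m ta den (k + 2) B, fD Fk m tk den (k + 2) B,
    fD Fb m tb den (k + 2) B⟩)
    (deep_fun h hlo.1 hdp.1) (deep_fun h hlo.2.1 hdp.2.1) (deep_fun h hlo.2.2 hdp.2.2)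

theorem tC_sound {lo fr : N3} (hm : 0 < m) (hden : 0 < den) (hx : Mem (1 / (m : ℝ)) X)
    (La : Lf Fa m ta) (Lk : Lf Fk m tk) (Lb : Lf Fb m tb) (h : Two k L b s B)
    (ja : (m : ℤ) - L - 1 + Fa.cf.v.length ≤ 0) (jk : (m : ℤ) - L - 1 + Fk.cf.v.length ≤ 0)
    (jb : (m : ℤ) - L - 1 + Fb.cf.v.length ≤ 0)
    (hC : tC Fa Fk Fb X lo fr = true) (hlo : LoOk Fa Fk Fb m ta tk tb den k b B lo)
    (hfr : XOk Fa Fk Fb m ta tk tb den k (k + b) B fr) : Cone Fa Fk Fb m ta tk tb den (k + 2) B := by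
  unfold tC at hC
  have hcone := Rc_of_tst (v := ⟨pev Fa.c0 (1 / m) + pev Fa.cf.tau (1 / m),
    pev Fk.c0 (1 / m) + pev Fk.cf.tau (1 / m), pev Fb.c0 (1 / m) + pev Fb.cf.tau (1 / m)⟩)
    ⟨memS_add (memS_pev hx _) (memS_pev hx _), memS_add (memS_pev hx _) (memS_pev hx _),
      memS_add (memS_pev hx _) (memS_pev hx _)⟩ hC
  exact hcone.cone (F := ⟨fD Fa m ta den (k + 2) B, fD Fk m tk den (k + 2) B,
    fD Fb m tb den (k + 2) B⟩)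
    (const_fun h hm La.1 La.2 hden ja hlo.1 hfr.1) (const_fun h hm Lk.1 Lk.2 hden jk hlo.2.1 hfr.2.1)
    (const_fun h hm Lb.1 Lb.2 hden jb hlo.2.2 hfr.2.2)

end

end Pool.NW
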