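import Pool.Agent.Work.MP_46fa68_18.MoPz

/-!
# The main theorem of the point checker
-/

set_option autoImplicit false

open Finset

namespace Pool.NW

open Pool.NV Pool.OB Pool.JM

/-- the error budgets of one function -/
structure BudQ (Q : DatQ) (F : FD) (sel : N3 → ℕ) (m t den : ℕ) : Prop where
  bud : Bud Q.D F sel m t den
  f2 : ∀ (k L b s : ℕ) (B : Finset ℕ) (i2 : ℕ), Two k L b s B → L + b + s = 2 * m →
    (i2 : ℤ) = (m : ℤ) + 1 - b + Q.D.o → Q.fo ≤ i2 → i2 < Q.fo + Q.f2.length →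
    |xD F m t den (k + 2) B (k + b)| * (S : ℕ) ≤ (sel (Q.f2.getD (i2 - Q.fo) z3) : ℝ)
  dr : ∀ (k L b s : ℕ) (B : Finset ℕ) (i1 : ℕ), Two k L b s B → L + b + s = 2 * m →
    (i1 : ℤ) = (m : ℤ) - L + Q.D.o → ((Q.D.J2.getD i1 0 : ℕ) : ℤ) < (m : ℤ) + 1 - b + Q.D.o →
    Q.dro ≤ i1 → i1 < Q.dro + Q.dr.length →
    (|xD F m t den (k + 2) B (k + 1 + L)| + |xD F m t den (k + 2) B (k + b)|) * (S : ℕ) ≤
      (sel (Q.dr.getD (i1 - Q.dro) z3) : ℝ)

/-- **THE MAIN THEOREM.** -/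
theorem chkQ_sound {Q : DatQ} {X : NI} (hc : chkQ Q X = true) {m den ta tk tb : ℕ} (hm : 0 < m)
    (hden : 0 < den) (hx : Mem (1 / (m : ℝ)) X) (Ha : BudQ Q Q.D.a N3.a m ta den)
    (Hk : BudQ Q Q.D.k N3.k m tk den) (Hb : BudQ Q Q.D.b N3.b m tb den) {k L b s : ℕ} {B : Finset ℕ}
    (h : Two k L b s B) (hN : L + b + s = 2 * m)
    (hR : ∀ i1 i2 : ℕ, (i1 : ℤ) = (m : ℤ) - L + Q.D.o → (i2 : ℤ) = (m : ℤ) + 1 - b + Q.D.o →
      memR Q.D.R i1 i2 = false) : Cone Q.D.a Q.D.k Q.D.b m ta tk tb den (k + 2) B := by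
  have hbL := h.hbL
  have La : Lf Q.D.a m ta := ⟨Ha.bud.ht, Ha.bud.ht1⟩
  have Lk : Lf Q.D.k m tk := ⟨Hk.bud.ht, Hk.bud.ht1⟩
  have Lb : Lf Q.D.b m tb := ⟨Hb.bud.ht, Hb.bud.ht1⟩
  have hlow : LoOk Q.D.a Q.D.k Q.D.b m ta tk tb den k b B Q.D.low :=
    ⟨Ha.bud.low k L b s B h hN, Hk.bud.low k L b s B h hN, Hb.bud.low k L b s B h hN⟩
  have hlows : LoOk Q.D.a Q.D.k Q.D.b m ta tk tb den k b B (Q.D.lows.getD s Q.D.low) :=
    ⟨Ha.bud.lows k L b s B h hN, Hk.bud.lows k L b s B h hN, Hb.bud.lows k L b s B h hN⟩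
  unfold chkQ at hc
  rw [Bool.and_eq_true] at hc
  obtain ⟨hend, hrows⟩ := hc
  unfold chkEnd at hend
  rw [Bool.and_eq_true, Bool.and_eq_true, Bool.and_eq_true, Bool.and_eq_true, Nat.ble_eq, Nat.ble_eq,
    Nat.ble_eq] at hend
  obtain ⟨la, lk, lb, hC, hD⟩ := hend
  rcases lt_or_ge ((m : ℤ) - L + Q.D.o) 0 with hneg | hpos
  · -- constant first row
    exact tC_sound hm hden hx La Lk Lb h (by omega) (by omega) (by omega) hC hlow
      ⟨Ha.bud.farn k L b s B h hN hneg, Hk.bud.farn k L b s B h hN hneg,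
        Hb.bud.farn k L b s B h hN hneg⟩
  rcases lt_or_ge ((m : ℤ) - L + Q.D.o) (Q.D.n1 : ℤ) with hlt | hge
  swap
  · -- far first bead
    exact tD_sound hx h hD hlow
      ⟨Ha.bud.deep k L b s B h hN hge, Hk.bud.deep k L b s B h hN hge, Hb.bud.deep k L b s B h hN hge⟩
  -- a row
  obtain ⟨i1, hi1⟩ : ∃ i1 : ℕ, (i1 : ℤ) = (m : ℤ) - L + Q.D.o :=
    ⟨((m : ℤ) - L + Q.D.o).toNat, by omega⟩
  obtain ⟨i2, hi2⟩ : ∃ i2 : ℕ, (i2 : ℤ) = (m : ℤ) + 1 - b + Q.D.o :=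
    ⟨((m : ℤ) + 1 - b + Q.D.o).toNat, by omega⟩
  have hi1n : i1 < Q.D.n1 := by omega
  have hrow := all_range hrows hi1n
  unfold chkRowQ at hrow
  rw [Bool.and_eq_true] at hrow
  obtain ⟨hpairs, hrest⟩ := hrow
  have j1e : jj Q.D.o i1 = (m : ℤ) - L := by unfold jj; omega
  have j2e : jj Q.D.o i2 = (m : ℤ) + 1 - b := by unfold jj; omega
  rcases Nat.lt_or_ge i2 (Q.D.J2.getD i1 0 + 1) with hJ | hJ
  · -- pair class
    have hp := all_range hpairs hJ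
    unfold chkPQ at hp
    rw [Bool.or_eq_true, Bool.or_eq_true, Bool.or_eq_true, Nat.ble_eq, Nat.ble_eq,
      hR i1 i2 hi1 hi2] at hp
    rcases hp with hp | hp | hp | hp
    · omega
    · omega
    · exact absurd hp (by simp)
    have es : i1 + i2 - 2 * Q.D.o - 1 = s := by omega
    have eD : i2 - i1 = L + 1 - b := by omega
    rw [es, eD, j1e, j2e] at hp
    cases h0 : Nat.beq (Q.md i1 i2).md 0
    · rw [h0, cond_false] at hp
      cases h1 : Nat.beq (Q.md i1 i2).md 1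
      · rw [h1, cond_false, Bool.and_eq_true, Bool.and_eq_true, Nat.ble_eq, Nat.ble_eq] at hp
        obtain ⟨⟨f1, f2⟩, hq⟩ := hp
        exact tQ_sound hm hden hx La Lk Lb h hN hq hlows
          ⟨Ha.f2 k L b s B i2 h hN hi2 f1 (by omega), Hk.f2 k L b s B i2 h hN hi2 f1 (by omega),
            Hb.f2 k L b s B i2 h hN hi2 f1 (by omega)⟩
      · rw [h1, cond_true] at hp
        exact tZ_sound hm hden hx La Lk Lb h hN hp hlows
    · rw [h0, cond_true] at hp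
      exact tP_sound hm hden hx La Lk Lb h hN hp hlows
  · -- the rest of a row
    have hJ' : ((Q.D.J2.getD i1 0 : ℕ) : ℤ) < (m : ℤ) + 1 - b + Q.D.o := by omega
    have hDD : Q.D.J2.getD i1 0 + 1 - i1 ≤ L + 1 - b := by omega
    rw [j1e] at hrest
    cases h0 : Nat.ble Q.dro i1
    · rw [h0, cond_false] at hrest
      exact tF_sound hm hden hx La Lk Lb h hN hDD hrest hlow
        ⟨Ha.bud.far k L b s B i1 h hN hi1 hi1n hJ', Hk.bud.far k L b s B i1 h hN hi1 hi1n hJ',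
          Hb.bud.far k L b s B i1 h hN hi1 hi1n hJ'⟩
    · rw [h0, cond_true, Bool.and_eq_true, Nat.ble_eq] at hrest
      obtain ⟨f1, hq⟩ := hrest
      rw [Nat.ble_eq] at h0
      exact tD_sound hx h hq hlow
        ⟨Ha.dr k L b s B i1 h hN hi1 hJ' h0 (by omega), Hk.dr k L b s B i1 h hN hi1 hJ' h0 (by omega),
          Hb.dr k L b s B i1 h hN hi1 hJ' h0 (by omega)⟩

end Pool.NW
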