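import Pool.Agent.Work.MP_46fa68_18.MoP3
import Pool.Agent.Work.MP_46fa68_23.Mo9

/-!
# The budgets of the point checker
-/

set_option autoImplicit false

open Finset

namespace Pool.NW

open Pool.NV Pool.OB Pool.JM Pool.JM.FR

/-- the numbers `f2` -/
def okF2 (Q : DatQ) (F : FD) (sel : N3 → ℕ) (μ : ℕ) (X : NI) : Bool :=
  (List.range Q.f2.length).all fun n => Nat.ble (Q.D.o + 2) (Q.fo + n) &&
    oFar F μ 1 X (((Q.fo + n - 1 - Q.D.o : ℕ) : ℤ) + F.u).toNat (sel (Q.f2.getD n z3))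

/-- the numbers `dr` -/
def okDr (Q : DatQ) (F : FD) (sel : N3 → ℕ) (μ : ℕ) (X : NI) : Bool :=
  (List.range Q.dr.length).all fun n =>
    (Nat.ble (Q.D.o + 2) (Q.dro + n) && Nat.ble (Q.D.o + 1) (Q.D.J2.getD (Q.dro + n) 0)) &&
    (okBF F.u μ 0 (((Q.dro + n - 1 - Q.D.o : ℕ) : ℤ) + F.u).toNat (F.cf.v.length + 2) &&
      (okBF F.u μ 1 (((Q.D.J2.getD (Q.dro + n) 0 - Q.D.o : ℕ) : ℤ) + F.u).toNat (F.cf.v.length + 2) &&
        Nat.ble (budF F.u μ 0 F.cf X (((Q.dro + n - 1 - Q.D.o : ℕ) : ℤ) + F.u).toNat +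
          budF F.u μ 1 F.cf X (((Q.D.J2.getD (Q.dro + n) 0 - Q.D.o : ℕ) : ℤ) + F.u).toNat)
          (sel (Q.dr.getD n z3))))

def okBudQ (Q : DatQ) (F : FD) (sel : N3 → ℕ) (μ nC : ℕ) (X : NI) : Bool :=
  okBud Q.D F sel μ nC X && (okF2 Q F sel μ X && okDr Q F sel μ X)

/-- **the budgets** -/
theorem budQ_of {Q : DatQ} {F : FD} {sel : N3 → ℕ} {m nC : ℕ} {X : NI}
    (hok : okBudQ Q F sel m nC X = true) {den t : ℕ} (hden : 0 < den) (ht : (t : ℤ) + F.u = (m : ℤ))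
    (hX : Mem (1 / (m : ℝ)) X) : BudQ Q F sel m t den := by
  unfold okBudQ at hok
  rw [Bool.and_eq_true, Bool.and_eq_true] at hok
  obtain ⟨hb, hf2, hdr⟩ := hok
  have hb' := hb
  unfold okBud at hb'
  simp only [Bool.and_eq_true] at hb'
  obtain ⟨⟨hu, h17, hZ, hn⟩, -⟩ := hb'
  rw [decide_eq_true_eq] at hu
  rw [Nat.ble_eq] at h17
  have hA : Adm F.u F.cf m 0 t := ⟨hu, h17, ht, fun h1 => (oZ_spec hZ h1).1⟩
  have hlen : F.u = 1 → 1 ≤ F.cf.v.length := fun h1 => (oZ_spec hZ h1).2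
  have hS := S_posR
  have hden0 : (0 : ℝ) ≤ den := Nat.cast_nonneg den
  have eX : ∀ (K : ℕ) (B : Finset ℕ) (x : ℕ), |xD F m t den K B x| =
      |HIx K m t F.cf.v.length (vC F.cf m den) (tauC F.cf m den) B x| * den := by
    intro K B x
    unfold xD
    rw [abs_mul, abs_of_nonneg hden0]
  refine ⟨bud_of (d := 0) hb hden ht hX, ?_, ?_⟩
  · intro k L b s B i2 hT hN hi2 h1 h2
    obtain ⟨n, rfl⟩ : ∃ n, i2 = Q.fo + n := ⟨i2 - Q.fo, by omega⟩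
    rw [Nat.add_sub_cancel_left]
    have h := all_range hf2 (show n < Q.f2.length by omega)
    rw [Bool.and_eq_true, Nat.ble_eq] at h
    obtain ⟨h3, h4⟩ := h
    unfold oFar at h4
    rw [Bool.and_eq_true, Nat.ble_eq] at h4
    rw [eX]
    refine (bud_far2 (d := 0) (J := Q.fo + n - 1 - Q.D.o) hA hden hX hlen hT hN (by omega) h4.1
      (by omega)).trans ?_
    exact_mod_cast h4.2
  · intro k L b s B i1 hT hN hi1 hJ h1 h2
    obtain ⟨n, rfl⟩ : ∃ n, i1 = Q.dro + n := ⟨i1 - Q.dro, by omega⟩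
    rw [Nat.add_sub_cancel_left]
    have h := all_range hdr (show n < Q.dr.length by omega)
    rw [Bool.and_eq_true, Bool.and_eq_true, Bool.and_eq_true, Bool.and_eq_true, Nat.ble_eq, Nat.ble_eq,
      Nat.ble_eq] at h
    obtain ⟨⟨h3, h4⟩, h5, h6, h7⟩ := h
    rw [eX, eX]
    have e1 := bud_far1 (d := 0) (J := Q.dro + n - 1 - Q.D.o) hA hden hX hlen hT hN (by omega) h5
      (by omega)
    have e2 := bud_far2 (d := 0) (J := Q.D.J2.getD (Q.dro + n) 0 - Q.D.o) hA hden hX hlen hT hN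
      (by omega) h6 (by omega)
    have e3 : ((budF F.u m 0 F.cf X (((Q.dro + n - 1 - Q.D.o : ℕ) : ℤ) + F.u).toNat +
          budF F.u m 1 F.cf X (((Q.D.J2.getD (Q.dro + n) 0 - Q.D.o : ℕ) : ℤ) + F.u).toNat : ℕ) : ℝ) ≤
        (sel (Q.dr.getD n z3) : ℝ) := by exact_mod_cast h7
    push_cast at e3
    have e1' : |HIx (k + 2) m t F.cf.v.length (vC F.cf m den) (tauC F.cf m den) B (k + 1 + L)| * den *
      (S : ℕ) ≤ (budF F.u m 0 F.cf X (((Q.dro + n - 1 - Q.D.o : ℕ) : ℤ) + F.u).toNat : ℕ) := e1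
    have e2' : |HIx (k + 2) m t F.cf.v.length (vC F.cf m den) (tauC F.cf m den) B (k + b)| * den *
      (S : ℕ) ≤ (budF F.u m 1 F.cf X (((Q.D.J2.getD (Q.dro + n) 0 - Q.D.o : ℕ) : ℤ) + F.u).toNat : ℕ) := e2
    linarith

end Pool.NW
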