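import Pool.Agent.Work.MP_46fa68_18.MoP4
import Pool.Agent.Work.MP_46fa68_36.LargeP

/-!
# `MainP`, `CrudeP` from runs of the point checker
-/

set_option autoImplicit false

open Finset

namespace Pool.NW

open Pool.NV Pool.OB Pool.JM Pool.JM.FR Pool.EGP

def FA : FD := ⟨cfA, 1, [256]⟩
def FK : FD := ⟨cfK, 1, [401]⟩
def FB : FD := ⟨cfB, 0, [128]⟩

/-- list of layer pairs as index pairs -/
def toR (o : ℕ) (J : List (ℤ × ℤ)) : List (ℕ × ℕ) := J.map fun p => ((p.1 + (o : ℤ)).toNat, (p.2 + (o : ℤ)).toNat)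

theorem memR_of {o : ℕ} : ∀ {J : List (ℤ × ℤ)}, (∀ p ∈ J, 0 ≤ p.1 + (o : ℤ) ∧ 0 ≤ p.2 + (o : ℤ)) →
    ∀ {i j : ℕ} {x y : ℤ}, (i : ℤ) = x + o → (j : ℤ) = y + o → (x, y) ∉ J → memR (toR o J) i j = false
  | [], _, _, _, _, _, _, _, _ => rfl
  | p :: J, h, i, j, x, y, hi, hj, hn => by
    have h1 := h p (List.mem_cons_self ..)
    have h2 : (x, y) ≠ p := fun e => hn (e ▸ List.mem_cons_self ..)
    have h3 : (x, y) ∉ J := fun e => hn (List.mem_cons_of_mem _ e)
    have ih := memR_of (J := J) (fun q hq => h q (List.mem_cons_of_mem _ hq)) hi hj h3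
    show ((Nat.beq (p.1 + (o : ℤ)).toNat i && Nat.beq (p.2 + (o : ℤ)).toNat j) || memR (toR o J) i j) = false
    rw [ih, Bool.or_false]
    by_contra hc
    rw [Bool.not_eq_false, Bool.and_eq_true] at hc
    apply h2
    have c1 := Nat.eq_of_beq_eq_true hc.1
    have c2 := Nat.eq_of_beq_eq_true hc.2
    ext
    · show x = p.1
      omega
    · show y = p.2
      omega

theorem J24_nn : ∀ p ∈ J24, 0 ≤ p.1 + ((12 : ℕ) : ℤ) ∧ 0 ≤ p.2 + ((12 : ℕ) : ℤ) := by decide

theorem mem_pt {m : ℕ} (hm : 0 < m) : Mem (1 / (m : ℝ)) (rat 1 m) := by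
  have h := mem_rat (p := 1) hm
  simpa using h

/-- **the cone at the point `m`** -/
theorem mainP_of {Q : DatQ} {m nC : ℕ} (hm : 2 ≤ m) (ha : Q.D.a = FA) (hk : Q.D.k = FK) (hb : Q.D.b = FB)
    (ho : Q.D.o = 12) (hR : Q.D.R = toR 12 J24) (hrun : chkQ Q (rat 1 m) = true)
    (oA : okBudQ Q FA N3.a m nC (rat 1 m) = true) (oK : okBudQ Q FK N3.k m nC (rat 1 m) = true)
    (oB : okBudQ Q FB N3.b m nC (rat 1 m) = true) : MainP m := by
  intro k L b s B h hN hJ
  have hx := mem_pt (show 0 < m by omega)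
  have ta : (((m - 1 : ℕ)) : ℤ) + FA.u = (m : ℤ) := by
    have : FA.u = 1 := rfl
    omega
  have tk : (((m - 1 : ℕ)) : ℤ) + FK.u = (m : ℤ) := by
    have : FK.u = 1 := rfl
    omega
  have tb : ((m : ℕ) : ℤ) + FB.u = (m : ℤ) := by
    have : FB.u = 0 := rfl
    omega
  have Ha := budQ_of (den := 1000) oA (by norm_num) ta hx
  have Hk := budQ_of (den := 1000) oK (by norm_num) tk hx
  have Hb := budQ_of (den := 1000) oB (by norm_num) tb hx
  have hc := chkQ_sound (ta := m - 1) (tk := m - 1) (tb := m) hrun (by omega)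
    (show 0 < 1000 by norm_num) hx (by rw [ha]; exact Ha) (by rw [hk]; exact Hk) (by rw [hb]; exact Hb)
    h hN (by
      intro i1 i2 h1 h2
      rw [hR]
      rw [ho] at h1 h2
      exact memR_of J24_nn h1 h2 hJ)
  rw [ha, hk, hb] at hc
  obtain ⟨c1, c2, c3⟩ := hc
  have ea : fD FA m (m - 1) 1000 (k + 2) B = 256 +
      HI (k + 2) m (m - 1) 4 (vC cfA m 1000) (tauC cfA m 1000) B * 1000 := by
    unfold fD
    have : pev FA.c0 (1 / (m : ℝ)) = 256 := by simp [FA, pev]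
    rw [this]
    simp [FA, cfA]
  have ek : fD FK m (m - 1) 1000 (k + 2) B = 401 +
      HI (k + 2) m (m - 1) 4 (vC cfK m 1000) (tauC cfK m 1000) B * 1000 := by
    unfold fD
    have : pev FK.c0 (1 / (m : ℝ)) = 401 := by simp [FK, pev]
    rw [this]
    simp [FK, cfK]
  have eb : fD FB m m 1000 (k + 2) B = 128 +
      HI (k + 2) m m 3 (vC cfB m 1000) (tauC cfB m 1000) B * 1000 := by
    unfold fD
    have : pev FB.c0 (1 / (m : ℝ)) = 128 := by simp [FB, pev]
    rw [this]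
    simp [FB, cfB]
  rw [ea] at c1 c3
  rw [ek] at c2 c3
  rw [eb] at c3
  refine ⟨by linarith, by linarith, ?_⟩
  nlinarith

/-! ### crude bounds -/

def C2 : FD := cst [2000]

theorem crude_of {Q : DatQ} {F : FD} {m t nC : ℕ} (hm : 2 ≤ m) (ha : Q.D.a = C2) (hk : Q.D.k = C2)
    (hb : Q.D.b = F) (hR : Q.D.R = []) (hrun : chkQ Q (rat 1 m) = true) (ht : (t : ℤ) + F.u = (m : ℤ))
    (oA : okBudQ Q C2 N3.a m nC (rat 1 m) = true) (oK : okBudQ Q C2 N3.k m nC (rat 1 m) = true)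
    (oB : okBudQ Q F N3.b m nC (rat 1 m) = true) {k L b s : ℕ} {B : Finset ℕ} (h : Two k L b s B)
    (hN : L + b + s = 2 * m) : |fD F m t 1000 (k + 2) B| ≤ 2000 := by
  have hx := mem_pt (show 0 < m by omega)
  have ta : ((m : ℕ) : ℤ) + C2.u = (m : ℤ) := by
    have : C2.u = 0 := rfl
    omega
  have Ha := budQ_of (den := 1000) oA (by norm_num) ta hx
  have Hk := budQ_of (den := 1000) oK (by norm_num) ta hx
  have Hb := budQ_of (den := 1000) oB (by norm_num) ht hx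
  have hc := chkQ_sound (ta := m) (tk := m) (tb := t) hrun (by omega)
    (show 0 < 1000 by norm_num) hx (by rw [ha]; exact Ha) (by rw [hk]; exact Hk) (by rw [hb]; exact Hb)
    h hN (by
      intro i1 i2 h1 h2
      rw [hR]
      rfl)
  rw [ha, hk, hb] at hc
  obtain ⟨-, -, c3⟩ := hc
  have e : fD C2 m m 1000 (k + 2) B = 2000 := by
    unfold C2
    rw [fD_cst]
    simp [pev]
  rw [e] at c3
  exact abs_le_of_sq_le_sq (by nlinarith) (by norm_num)

theorem crudeP_of {m : ℕ} (h1 : ∀ (k L b s : ℕ) (B : Finset ℕ), Two k L b s B → L + b + s = 2 * m →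
      |fD FA m (m - 1) 1000 (k + 2) B| ≤ 2000)
    (h2 : ∀ (k L b s : ℕ) (B : Finset ℕ), Two k L b s B → L + b + s = 2 * m →
      |fD FK m (m - 1) 1000 (k + 2) B| ≤ 2000)
    (h3 : ∀ (k L b s : ℕ) (B : Finset ℕ), Two k L b s B → L + b + s = 2 * m →
      |fD FB m m 1000 (k + 2) B| ≤ 2000) : CrudeP m := by
  intro k L b s B h hN _
  have c1 := h1 k L b s B h hN
  have c2 := h2 k L b s B h hN
  have c3 := h3 k L b s B h hN
  have ea : fD FA m (m - 1) 1000 (k + 2) B = 256 +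
      HI (k + 2) m (m - 1) 4 (vC cfA m 1000) (tauC cfA m 1000) B * 1000 := by
    unfold fD
    have : pev FA.c0 (1 / (m : ℝ)) = 256 := by simp [FA, pev]
    rw [this]
    simp [FA, cfA]
  have ek : fD FK m (m - 1) 1000 (k + 2) B = 401 +
      HI (k + 2) m (m - 1) 4 (vC cfK m 1000) (tauC cfK m 1000) B * 1000 := by
    unfold fD
    have : pev FK.c0 (1 / (m : ℝ)) = 401 := by simp [FK, pev]
    rw [this]
    simp [FK, cfK]
  have eb : fD FB m m 1000 (k + 2) B = 128 +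
      HI (k + 2) m m 3 (vC cfB m 1000) (tauC cfB m 1000) B * 1000 := by
    unfold fD
    have : pev FB.c0 (1 / (m : ℝ)) = 128 := by simp [FB, pev]
    rw [this]
    simp [FB, cfB]
  rw [ea] at c1
  rw [ek] at c2
  rw [eb] at c3
  refine ⟨?_, ?_, ?_⟩
  · rw [abs_le] at c1 ⊢
    constructor <;> linarith
  · rw [abs_le] at c3 ⊢
    constructor <;> linarith
  · rw [abs_le] at c2 ⊢
    constructor <;> linarith

end Pool.NW
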