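import Pool.Agent.Work.MP_46fa68_18.MoP4
import Pool.Agent.Work.MP_46fa68_38.ModeA2

/-!
# The budgets of the point checker, mode A (helper38) for the far rows
-/

set_option autoImplicit false

open Finset

namespace Pool.NW

open Pool.NV Pool.OB Pool.JM Pool.JM.FR

/-- number of layers treated by mode A -/
def nA (J : ℕ) : ℕ := min 6 (12 - J)

/-- far row, mode A -/
def oFarA (F : FD) (m c : ℕ) (X : NI) (J v : ℕ) : Bool :=
  Pool.JM.FR.okF F.u m F.cf X c (J : ℤ) (nA J) && Nat.ble (mF F.u m F.cf X c (J : ℤ) (nA J)) v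

/-- both rows -/
def oDeepA (F : FD) (m : ℕ) (X : NI) (J1 J2 v : ℕ) : Bool :=
  Pool.JM.FR.okF F.u m F.cf X 0 (J1 : ℤ) (nA J1) && (Pool.JM.FR.okF F.u m F.cf X 1 (J2 : ℤ) (nA J2) &&
    Nat.ble (mF F.u m F.cf X 0 (J1 : ℤ) (nA J1) + mF F.u m F.cf X 1 (J2 : ℤ) (nA J2)) v)

/-- all the numbers of `Q` for the function `F` at the point `m` -/
def okBudA (Q : DatQ) (F : FD) (sel : N3 → ℕ) (m nC : ℕ) (X : NI) : Bool :=
  (decide (F.u = -1 ∨ F.u = 0 ∨ F.u = 1) && (Nat.ble 17 m && (oZ F && Nat.ble (Q.D.o + 2) Q.D.n1))) &&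
  ((oLow F m nC X (2 * m / 3) (sel Q.D.low) &&
    (List.range Q.D.lows.length).all fun s => oLow F m nC X (max 3 s) (sel (Q.D.lows.getD s Q.D.low))) &&
  (((List.range Q.D.n1).all fun i1 => Nat.ble (Q.D.o + 1) (Q.D.J2.getD i1 0) &&
      oFarA F m 1 X (Q.D.J2.getD i1 0 - Q.D.o) (sel (Q.D.far.getD i1 z3))) &&
    (oFarA F m 1 X (Q.D.o + 1) (sel Q.D.farn) &&
      (oDeepA F m X (Q.D.n1 - 1 - Q.D.o) (Q.D.n1 - Q.D.o) (sel Q.D.deep) &&
        (((List.range Q.f2.length).all fun n => Nat.ble (Q.D.o + 2) (Q.fo + n) &&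
            oFarA F m 1 X (Q.fo + n - 1 - Q.D.o) (sel (Q.f2.getD n z3))) &&
          ((List.range Q.dr.length).all fun n =>
            (Nat.ble (Q.D.o + 2) (Q.dro + n) && Nat.ble (Q.D.o + 1) (Q.D.J2.getD (Q.dro + n) 0)) &&
              oDeepA F m X (Q.dro + n - 1 - Q.D.o) (Q.D.J2.getD (Q.dro + n) 0 - Q.D.o)
                (sel (Q.dr.getD n z3))))))))

/-- **the budgets** -/
theorem budA_of {Q : DatQ} {F : FD} {sel : N3 → ℕ} {m nC : ℕ} {X : NI}
    (hok : okBudA Q F sel m nC X = true) {den t : ℕ} (hden : 0 < den) (ht : (t : ℤ) + F.u = (m : ℤ))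
    (hX : Mem (1 / (m : ℝ)) X) : BudQ Q F sel m t den := by
  unfold okBudA at hok
  simp only [Bool.and_eq_true] at hok
  obtain ⟨⟨hu, h17, hZ, hn⟩, ⟨hlow, hlows⟩, hfar, hfarn, hdeep, hf2, hdr⟩ := hok
  rw [decide_eq_true_eq] at hu
  rw [Nat.ble_eq] at h17 hn
  have hA : Adm F.u F.cf m 0 t := ⟨hu, h17, ht, fun h1 => (oZ_spec hZ h1).1⟩
  have hlen : F.u = 1 → 1 ≤ F.cf.v.length := fun h1 => (oZ_spec hZ h1).2
  have hS := S_posR
  have hden0 : (0 : ℝ) ≤ den := Nat.cast_nonneg den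
  have eL : ∀ (K : ℕ) (B : Finset ℕ) (x : ℕ), |lD F m t den K B x| =
      |HL K m t F.cf.v.length (vC F.cf m den) (tauC F.cf m den) B x| * den := by
    intro K B x
    unfold lD
    rw [abs_mul, abs_of_nonneg hden0]
  have eX : ∀ (K : ℕ) (B : Finset ℕ) (x : ℕ), |xD F m t den K B x| =
      |HIx K m t F.cf.v.length (vC F.cf m den) (tauC F.cf m den) B x| * den := by
    intro K B x
    unfold xD
    rw [abs_mul, abs_of_nonneg hden0]
  have lowB : ∀ (Lc v : ℕ), oLow F m nC X Lc v = true → ∀ (k L b s : ℕ) (B : Finset ℕ), Two k L b s B →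
      L + b + s = 2 * m → (s ≤ Lc ∨ (2 * m) / 3 ≤ Lc) →
      |lD F m t den (k + 2) B (k + b)| * (S : ℕ) ≤ (v : ℝ) := by
    intro Lc v h k L b s B hT hN hs
    unfold oLow at h
    rw [Bool.and_eq_true, Nat.ble_eq] at h
    rw [eL]
    refine (bud_low (d := 0) hA hden hX hlen h.1 hT hN hs).trans ?_
    exact_mod_cast h.2
  have farB : ∀ (J v : ℕ), oFarA F m 1 X J v = true →
      ∀ (k L b s : ℕ) (B : Finset ℕ), Two k L b s B → L + b + s = 2 * m → b + J ≤ m →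
      |xD F m t den (k + 2) B (k + b)| * (S : ℕ) ≤ (v : ℝ) := by
    intro J v h k L b s B hT hN hJ
    unfold oFarA at h
    rw [Bool.and_eq_true, Nat.ble_eq] at h
    rw [eX]
    refine (far2_A hA hden hX hlen h.1 hT hN (by omega)).trans ?_
    exact_mod_cast h.2
  have deepB : ∀ (J1 J2 v : ℕ), oDeepA F m X J1 J2 v = true →
      ∀ (k L b s : ℕ) (B : Finset ℕ), Two k L b s B → L + b + s = 2 * m → L + J1 + 1 ≤ m → b + J2 ≤ m →
      (|xD F m t den (k + 2) B (k + 1 + L)| + |xD F m t den (k + 2) B (k + b)|) * (S : ℕ) ≤ (v : ℝ) := by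
    intro J1 J2 v h k L b s B hT hN h1 h2
    unfold oDeepA at h
    rw [Bool.and_eq_true, Bool.and_eq_true, Nat.ble_eq] at h
    obtain ⟨o1, o2, o3⟩ := h
    rw [eX, eX]
    have e1 := far1_A hA hden hX hlen o1 hT hN (by omega)
    have e2 := far2_A hA hden hX hlen o2 hT hN (by omega)
    have e3 : ((mF F.u m F.cf X 0 (J1 : ℤ) (nA J1) + mF F.u m F.cf X 1 (J2 : ℤ) (nA J2) : ℕ) : ℝ) ≤
        (v : ℝ) := by exact_mod_cast o3
    push_cast at e3
    linarith
  refine ⟨⟨ht, by omega, ?_, ?_, ?_, ?_, ?_⟩, ?_, ?_⟩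
  · intro k L b s B hT hN
    exact lowB _ _ hlow k L b s B hT hN (Or.inr le_rfl)
  · intro k L b s B hT hN
    rcases Nat.lt_or_ge s Q.D.lows.length with hs | hs
    · exact lowB _ _ (all_range hlows hs) k L b s B hT hN (Or.inl (le_max_right 3 s))
    · rw [List.getD_eq_default _ _ hs]
      exact lowB _ _ hlow k L b s B hT hN (Or.inr le_rfl)
  · intro k L b s B i1 hT hN hi1 hi1n hJ
    have h := all_range hfar hi1n
    rw [Bool.and_eq_true, Nat.ble_eq] at h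
    exact farB _ _ h.2 k L b s B hT hN (by omega)
  · intro k L b s B hT hN hneg
    exact farB _ _ hfarn k L b s B hT hN (by omega)
  · intro k L b s B hT hN hge
    have hbL := hT.hbL
    exact deepB _ _ _ hdeep k L b s B hT hN (by omega) (by omega)
  · intro k L b s B i2 hT hN hi2 h1 h2
    obtain ⟨n, rfl⟩ : ∃ n, i2 = Q.fo + n := ⟨i2 - Q.fo, by omega⟩
    rw [Nat.add_sub_cancel_left]
    have h := all_range hf2 (show n < Q.f2.length by omega)
    rw [Bool.and_eq_true, Nat.ble_eq] at h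
    obtain ⟨h3, h4⟩ := h
    exact farB _ _ h4 k L b s B hT hN (by omega)
  · intro k L b s B i1 hT hN hi1 hJ h1 h2
    obtain ⟨n, rfl⟩ : ∃ n, i1 = Q.dro + n := ⟨i1 - Q.dro, by omega⟩
    rw [Nat.add_sub_cancel_left]
    have h := all_range hdr (show n < Q.dr.length by omega)
    rw [Bool.and_eq_true, Bool.and_eq_true, Nat.ble_eq, Nat.ble_eq] at h
    obtain ⟨⟨h3, h4⟩, h5⟩ := h
    exact deepB _ _ _ h5 k L b s B hT hN (by omega) (by omega)

end Pool.NW
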