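import Pool.Agent.Work.MP_46fa68_18.MoP5
import Pool.Agent.Work.MP_46fa68_18.MoP6

/-!
# `MainP`, `CrudeP` from runs of the point checker, budgets by mode A
-/

set_option autoImplicit false

open Finset

namespace Pool.NW

open Pool.NV Pool.OB Pool.JM Pool.JM.FR Pool.EGP

/-- **the cone at the point `m`** -/
theorem mainPA_of {Q : DatQ} {m nC : ℕ} (hm : 2 ≤ m) (ha : Q.D.a = FA) (hk : Q.D.k = FK) (hb : Q.D.b = FB)
    (ho : Q.D.o = 12) (hR : Q.D.R = toR 12 J24) (hrun : chkQ Q (rat 1 m) = true)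
    (oA : okBudA Q FA N3.a m nC (rat 1 m) = true) (oK : okBudA Q FK N3.k m nC (rat 1 m) = true)
    (oB : okBudA Q FB N3.b m nC (rat 1 m) = true) : MainP m := by
  intro k L b s B h hN hJ
  have hx := mem_pt (show 0 < m by omega)
  have ta : (((m - 1 : ℕ)) : ℤ) + FA.u = (m : ℤ) := by
    have : FA.u = 1 := rfl
    omega
  have tk : (((m - 1 : ℕ)) : ℤ) + FK.u = (m : ℤ) := by
    have : FK.u = 1 := rfl
    omega
  have tb : ((m : ℕ) : ℤ) + FB.u = (m : ℤ) := by
    have : FB.u = 0 := rfl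
    omega
  have Ha := budA_of (den := 1000) oA (by norm_num) ta hx
  have Hk := budA_of (den := 1000) oK (by norm_num) tk hx
  have Hb := budA_of (den := 1000) oB (by norm_num) tb hx
  have hc := chkQ_sound (ta := m - 1) (tk := m - 1) (tb := m) hrun (by omega)
    (show 0 < 1000 by norm_num) hx (by rw [ha]; exact Ha) (by rw [hk]; exact Hk) (by rw [hb]; exact Hb)
    h hN (by
      intro i1 i2 h1 h2
      rw [hR]
      rw [ho] at h1 h2
      exact memR_of J24_nn h1 h2 hJ)
  rw [ha, hk, hb] at hc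
  obtain ⟨c1, c2, c3⟩ := hc
  have ea : fD FA m (m - 1) 1000 (k + 2) B = 256 +
      HI (k + 2) m (m - 1) 4 (vC cfA m 1000) (tauC cfA m 1000) B * 1000 := by
    unfold fD
    have : pev FA.c0 (1 / (m : ℝ)) = 256 := by simp [FA, pev]
    rw [this]
    simp [FA, cfA]
  have ek : fD FK m (m - 1) 1000 (k + 2) B = 401 +
      HI (k + 2) m (m - 1) 4 (vC cfK m 1000) (tauC cfK m 1000) B * 1000 := by
    unfold fD
    have : pev FK.c0 (1 / (m : ℝ)) = 401 := by simp [FK, pev]
    rw [this]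
    simp [FK, cfK]
  have eb : fD FB m m 1000 (k + 2) B = 128 +
      HI (k + 2) m m 3 (vC cfB m 1000) (tauC cfB m 1000) B * 1000 := by
    unfold fD
    have : pev FB.c0 (1 / (m : ℝ)) = 128 := by simp [FB, pev]
    rw [this]
    simp [FB, cfB]
  rw [ea] at c1 c3
  rw [ek] at c2 c3
  rw [eb] at c3
  refine ⟨by linarith, by linarith, ?_⟩
  nlinarith

theorem crudeA_of {Q : DatQ} {F : FD} {m t nC : ℕ} (hm : 2 ≤ m) (ha : Q.D.a = C2) (hk : Q.D.k = C2)
    (hb : Q.D.b = F) (hR : Q.D.R = []) (hrun : chkQ Q (rat 1 m) = true) (ht : (t : ℤ) + F.u = (m : ℤ))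
    (oA : okBudA Q C2 N3.a m nC (rat 1 m) = true) (oK : okBudA Q C2 N3.k m nC (rat 1 m) = true)
    (oB : okBudA Q F N3.b m nC (rat 1 m) = true) {k L b s : ℕ} {B : Finset ℕ} (h : Two k L b s B)
    (hN : L + b + s = 2 * m) : |fD F m t 1000 (k + 2) B| ≤ 2000 := by
  have hx := mem_pt (show 0 < m by omega)
  have ta : ((m : ℕ) : ℤ) + C2.u = (m : ℤ) := by
    have : C2.u = 0 := rfl
    omega
  have Ha := budA_of (den := 1000) oA (by norm_num) ta hx
  have Hk := budA_of (den := 1000) oK (by norm_num) ta hx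
  have Hb := budA_of (den := 1000) oB (by norm_num) ht hx
  have hc := chkQ_sound (ta := m) (tk := m) (tb := t) hrun (by omega)
    (show 0 < 1000 by norm_num) hx (by rw [ha]; exact Ha) (by rw [hk]; exact Hk) (by rw [hb]; exact Hb)
    h hN (by
      intro i1 i2 h1 h2
      rw [hR]
      rfl)
  rw [ha, hk, hb] at hc
  obtain ⟨-, -, c3⟩ := hc
  have e : fD C2 m m 1000 (k + 2) B = 2000 := by
    unfold C2
    rw [fD_cst]
    simp [pev]
  rw [e] at c3
  exact abs_le_of_sq_le_sq (by nlinarith) (by norm_num)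

end Pool.NW
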