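import Pool.Agent.Work.MP_46fa68_18.MoP7

/-!
# The cone at a point, general triple and rare list
-/

set_option autoImplicit false

open Finset

namespace Pool.NW

open Pool.NV Pool.OB Pool.JM Pool.JM.FR Pool.EGP

/-- **the cone at the point `m`** -/
theorem cone_of {Q : DatQ} {F1 F2 F3 : FD} {J : List (ℤ × ℤ)} {m t1 t2 t3 nC : ℕ} (hm : 2 ≤ m)
    (ha : Q.D.a = F1) (hk : Q.D.k = F2) (hb : Q.D.b = F3) (ho : Q.D.o = 12) (hR : Q.D.R = toR 12 J)
    (hJ : ∀ p ∈ J, 0 ≤ p.1 + ((12 : ℕ) : ℤ) ∧ 0 ≤ p.2 + ((12 : ℕ) : ℤ))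
    (hrun : chkQ Q (rat 1 m) = true)
    (h1 : (t1 : ℤ) + F1.u = m) (h2 : (t2 : ℤ) + F2.u = m) (h3 : (t3 : ℤ) + F3.u = m)
    (oA : okBudA Q F1 N3.a m nC (rat 1 m) = true) (oK : okBudA Q F2 N3.k m nC (rat 1 m) = true)
    (oB : okBudA Q F3 N3.b m nC (rat 1 m) = true) {k L b s : ℕ} {B : Finset ℕ} (h : Two k L b s B)
    (hN : L + b + s = 2 * m) (hn : ((m : ℤ) - L, (m : ℤ) + 1 - b) ∉ J) :
    Cone F1 F2 F3 m t1 t2 t3 1000 (k + 2) B := by
  have hx := mem_pt (show 0 < m by omega)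
  have Ha := budA_of (den := 1000) oA (by norm_num) h1 hx
  have Hk := budA_of (den := 1000) oK (by norm_num) h2 hx
  have Hb := budA_of (den := 1000) oB (by norm_num) h3 hx
  have hc := chkQ_sound (ta := t1) (tk := t2) (tb := t3) hrun (by omega)
    (show 0 < 1000 by norm_num) hx (by rw [ha]; exact Ha) (by rw [hk]; exact Hk) (by rw [hb]; exact Hb)
    h hN (by
      intro i1 i2 e1 e2
      rw [hR]
      rw [ho] at e1 e2
      exact memR_of hJ e1 e2 hn)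
  rw [ha, hk, hb] at hc
  exact hc

end Pool.NW
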