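import Pool.Agent.Work.MP_46fa68_18.MoP8

/-!
# Constant bounds at a point, off a rare list
-/

set_option autoImplicit false

open Finset

namespace Pool.NW

open Pool.NV Pool.OB Pool.JM Pool.JM.FR Pool.EGP

/-- **`|F| ≤ c` at the point `m`, off the rare list `J`** -/
theorem bd_of {Q : DatQ} {F : FD} {c : ℤ} {J : List (ℤ × ℤ)} {m t nC : ℕ} (hm : 2 ≤ m) (hc0 : 0 ≤ c)
    (ha : Q.D.a = cst [c]) (hk : Q.D.k = cst [c]) (hb : Q.D.b = F) (ho : Q.D.o = 12)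
    (hR : Q.D.R = toR 12 J) (hJ : ∀ p ∈ J, 0 ≤ p.1 + ((12 : ℕ) : ℤ) ∧ 0 ≤ p.2 + ((12 : ℕ) : ℤ))
    (hrun : chkQ Q (rat 1 m) = true) (ht : (t : ℤ) + F.u = (m : ℤ))
    (oA : okBudA Q (cst [c]) N3.a m nC (rat 1 m) = true)
    (oK : okBudA Q (cst [c]) N3.k m nC (rat 1 m) = true)
    (oB : okBudA Q F N3.b m nC (rat 1 m) = true) {k L b s : ℕ} {B : Finset ℕ} (h : Two k L b s B)
    (hN : L + b + s = 2 * m) (hn : ((m : ℤ) - L, (m : ℤ) + 1 - b) ∉ J) :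
    |fD F m t 1000 (k + 2) B| ≤ c := by
  have tc : ((m : ℕ) : ℤ) + (cst [c]).u = (m : ℤ) := by
    have : (cst [c]).u = 0 := rfl
    omega
  have hc := cone_of (t1 := m) (t2 := m) (t3 := t) hm ha hk hb ho hR hJ hrun tc tc ht oA oK oB h hN hn
  obtain ⟨-, -, c3⟩ := hc
  have e : fD (cst [c]) m m 1000 (k + 2) B = c := by
    rw [fD_cst]
    simp [pev]
  rw [e] at c3
  have hcr : (0 : ℝ) ≤ c := by exact_mod_cast hc0
  exact abs_le_of_sq_le_sq (by nlinarith) hcr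

end Pool.NW
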