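import Pool.Agent.Work.MP_46fa68_18.MoP2

/-! STATEMENTS ONLY: MoPz = `tZ_sound`, `tQ_sound` (helper82), MoP2 = `tP_sound`, `tF_sound`, `chkQ_sound` (helper18) -/

set_option autoImplicit false

open Finset

namespace Pool.NW

open Pool.NV Pool.OB Pool.JM

/-! ### MoPz (helper82) -/

theorem tZ_sound {Fa Fk Fb : FD} {X : NI} {m den ta tk tb k L b s b2 : ℕ} {lo : N3} {B : Finset ℕ}
    (hm : 0 < m) (hden : 0 < den) (hx : Mem (1 / (m : ℝ)) X) (La : Lf Fa m ta) (Lk : Lf Fk m tk)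
    (Lb : Lf Fb m tb) (h : Two k L b s B) (hN : L + b + s = 2 * m)
    (ht : tZ Fa Fk Fb X ((m : ℤ) - L) ((m : ℤ) + 1 - b) (L + 1 - b) s b2 lo = true)
    (hlo : LoOk Fa Fk Fb m ta tk tb den k b B lo) : Cone Fa Fk Fb m ta tk tb den (k + 2) B := sorry

theorem tQ_sound {Fa Fk Fb : FD} {X : NI} {m den ta tk tb k L b s : ℕ} {lo fr : N3} {B : Finset ℕ}
    (hm : 0 < m) (hden : 0 < den) (hx : Mem (1 / (m : ℝ)) X) (La : Lf Fa m ta) (Lk : Lf Fk m tk)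
    (Lb : Lf Fb m tb) (h : Two k L b s B) (hN : L + b + s = 2 * m)
    (ht : tQ Fa Fk Fb X ((m : ℤ) - L) (L + 1 - b) s lo fr = true)
    (hlo : LoOk Fa Fk Fb m ta tk tb den k b B lo) (hfr : XOk Fa Fk Fb m ta tk tb den k (k + b) B fr) :
    Cone Fa Fk Fb m ta tk tb den (k + 2) B := sorry

end Pool.NW
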