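import Pool.Agent.Work.MP_46fa68_18.MoP2
import Pool.Agent.Work.MP_46fa68_36.Row1Z

/-!
# Soundness of the modes `tZ` and `tQ`

`tZ`: row one to order zero in the rows `≥ 3` (`row1_val1`), row two as in `parP`.
`tQ`: row one as before, row two by a budget.
-/

set_option autoImplicit false

open Finset

namespace Pool.NW

open Pool.NV Pool.OB Pool.JM

/-! ### row two alone -/

theorem okR2_spec {X : NI} {j2 : ℤ} {s : ℕ} (h : okR2 X j2 s = true) :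
    1 ≤ (lin (2 - j2) X).lo ∧ 1 ≤ (lin (2 - j2 - s) X).lo ∧ 1 ≤ (lin (1 - j2) X).lo := by
  unfold okR2 at h
  simpa only [Bool.and_eq_true, Nat.ble_eq] using h

theorem okZ_spec {X : NI} {j1 : ℤ} {s : ℕ} (h : okZ X j1 s = true) :
    1 ≤ (lin (2 - j1) X).lo ∧ 1 ≤ (lin (2 - j1 - s) X).lo := by
  unfold okZ at h
  simpa only [Bool.and_eq_true, Nat.ble_eq] using h

/-- **row two**: common parameter `x3`, then every function -/
theorem row2_rows {m k L b s D b2 : ℕ} {X : NI} {B : Finset ℕ} (hm : 0 < m)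
    (hx : Mem (1 / (m : ℝ)) X) (h : Two k L b s B) (hD : D = L + 1 - b)
    (hb2 : 100 ≤ b2) (hb2' : 4 * b2 ≤ 500) (hok : okR2 X ((m : ℤ) + 1 - b) s = true) :
    ∃ x3 : ℝ, (0 ≤ x3 ∧ x3 ≤ 1) ∧
      ∀ (cf : Cf) (t den : ℕ) (u : ℤ), (t : ℤ) + u = m → 1 ≤ t → 0 < den → u ≤ 29 →
        Rng u (1 / m) ((m : ℤ) + 1 - b) →
        |HIx (k + 2) m t cf.v.length (vC cf m den) (tauC cf m den) B (k + b) * den -
          ((mW cf u (1 / m) ((m : ℤ) + 1 - b) w0 - mW cf u (1 / m) ((m : ℤ) + 1 - b) w1 / D) +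
            x3 * (((par2 X ((m : ℤ) + 1 - b) s b2).ew : ℝ) / (S : ℕ) *
              (mW cf u (1 / m) ((m : ℤ) + 1 - b) w1 -
                (mW cf u (1 / m) ((m : ℤ) + 1 - b) w1 + mW cf u (1 / m) ((m : ℤ) + 1 - b) w2) / D)))| ≤
          ((par2 X ((m : ℤ) + 1 - b) s b2).g1 : ℝ) / (S : ℕ) *
              (mB cf u (1 / m) ((m : ℤ) + 1 - b) ((b2 : ℝ) / (100 : ℕ)) w1 +
                mB cf u (1 / m) ((m : ℤ) + 1 - b) ((b2 : ℝ) / (100 : ℕ)) w2 / D) +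
            ((par2 X ((m : ℤ) + 1 - b) s b2).g2 : ℝ) / (S : ℕ) *
              (mB cf u (1 / m) ((m : ℤ) + 1 - b) ((b2 : ℝ) / (100 : ℕ)) w2 +
                mB cf u (1 / m) ((m : ℤ) + 1 - b) ((b2 : ℝ) / (100 : ℕ)) w3 / D) := by
  have hs := S_posR
  have hbL := h.hbL
  have hD1 : 1 ≤ D := by omega
  have hDR : (D : ℝ) = (L : ℝ) + 1 - b := by
    have h2 : D + b = L + 1 := by omega
    have h3 : ((D : ℝ) + b) = (L : ℝ) + 1 := by exact_mod_cast h2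
    linarith
  have hD0 : (0 : ℝ) < D := by exact_mod_cast hD1
  set j2 : ℤ := (m : ℤ) + 1 - b with hj2
  obtain ⟨o3, o4, o5⟩ := okR2_spec hok
  set e2 : ℕ := epP X j2 s with he2
  set iB : ℕ := (iv (2 - j2) X).hi with hiB
  obtain ⟨hsb, hepP, hiBr⟩ := epP_ok (s := s) hm hx o3 o4
  have hb1p : 1 ≤ b := by
    have i1 := (iv_ok hm hx o5).1
    have e1 : (m : ℝ) + ((1 - j2 : ℤ) : ℝ) = (b : ℝ) := by
      rw [hj2]
      push_cast
      ring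
    rw [e1] at i1
    exact_mod_cast i1
  have hepB : ep B k L b ≤ (e2 : ℝ) / (S : ℕ) := (ep_le h hsb).trans hepP
  have hβ2' : (b2 : ℝ) / (100 : ℕ) ≤ 5 / 4 := by
    have h1 : ((4 * b2 : ℕ) : ℝ) ≤ 500 := by exact_mod_cast hb2'
    push_cast at h1 ⊢
    rw [div_le_iff₀ (by norm_num)]
    linarith
  have hβ21 : (1 : ℝ) ≤ (b2 : ℝ) / (100 : ℕ) := by
    have h1 : (100 : ℝ) ≤ b2 := by exact_mod_cast hb2
    rw [le_div_iff₀ (by norm_num)]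
    push_cast
    linarith
  have hy : (1 : ℝ) / D = 1 / ((L : ℝ) + 1 - b) := by rw [hDR]
  have hep0 := ep_nonneg h
  by_cases hmode : Nat.ble ((S + e2) * 100) (b2 * S) = true
  · have hP : par2 X j2 s b2 = ⟨0, 0, 0, e2, 0, 0, e2 * (max e2 iB) / S + 1⟩ := if_pos hmode
    rw [hP]
    obtain ⟨x3, hx3, hx3e⟩ := exists_frac hep0 hepB
    refine ⟨x3, hx3, fun cf t den u ht ht1 hden hu hR2 => ?_⟩
    have hβ2 : 1 + (e2 : ℝ) / (S : ℕ) ≤ (b2 : ℝ) / (100 : ℕ) := by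
      have h0 : (S + e2) * 100 ≤ b2 * S := Nat.ble_eq.mp hmode
      have h1 : (((S + e2) * 100 : ℕ) : ℝ) ≤ ((b2 * S : ℕ) : ℝ) := by exact_mod_cast h0
      push_cast at h1
      rw [le_div_iff₀ (by norm_num), ← sub_nonneg]
      have h2 : 0 ≤ ((b2 : ℝ) * (S : ℕ) - (((S : ℕ) : ℝ) + e2) * 100) / (S : ℕ) :=
        div_nonneg (by linarith) hs.le
      have h3 : ((b2 : ℝ) * (S : ℕ) - (((S : ℕ) : ℝ) + e2) * 100) / (S : ℕ) =
          (b2 : ℝ) - (1 + (e2 : ℝ) / (S : ℕ)) * (100 : ℕ) := by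
        push_cast
        field_simp
      rw [h3] at h2
      exact h2
    set μ2 : ℝ := ((max e2 iB : ℕ) : ℝ) / (S : ℕ) with hμ2
    have hμ2a : (e2 : ℝ) / (S : ℕ) ≤ μ2 := by
      rw [hμ2]
      refine div_le_div_of_nonneg_right ?_ hs.le
      exact_mod_cast le_max_left _ _
    have hμ2b : 1 ≤ μ2 * ((b : ℝ) + 1) := by
      have hb1 : (0 : ℝ) < (b : ℝ) + 1 := by positivity
      have h1 : 1 / ((b : ℝ) + 1) ≤ μ2 := by
        refine hiBr.trans ?_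
        rw [hμ2]
        refine div_le_div_of_nonneg_right ?_ hs.le
        exact Nat.cast_le.2 (le_max_right e2 iB)
      rwa [div_le_iff₀ hb1] at h1
    have hg2 : (e2 : ℝ) / (S : ℕ) * μ2 ≤ ((e2 * (max e2 iB) / S + 1 : ℕ) : ℝ) / (S : ℕ) := mul_up _ _
    have r2 := row2_val (cf := cf) (E := (e2 : ℝ) / (S : ℕ)) (μ2 := μ2) (β := (b2 : ℝ) / (100 : ℕ))
      hm ht ht1 hden hu hb1p h hR2 hy hepB hμ2a hμ2b hβ2 hβ2'
    have q2 := mB_nonneg' (cf := cf) hR2 (b := (b2 : ℝ) / (100 : ℕ)) (by positivity) w2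
    have q3 := mB_nonneg' (cf := cf) hR2 (b := (b2 : ℝ) / (100 : ℕ)) (by positivity) w3
    set N0 := mW cf u (1 / m) j2 w0
    set N1 := mW cf u (1 / m) j2 w1
    set N2 := mW cf u (1 / m) j2 w2
    set c2 := mB cf u (1 / m) j2 ((b2 : ℝ) / (100 : ℕ)) w2
    set d3 := mB cf u (1 / m) j2 ((b2 : ℝ) / (100 : ℕ)) w3
    set H2 := HIx (k + 2) m t cf.v.length (vC cf m den) (tauC cf m den) B (k + b) * den
    have t2 : (e2 : ℝ) / (S : ℕ) * μ2 * (c2 + 1 / (D : ℝ) * d3) ≤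
        ((e2 * (max e2 iB) / S + 1 : ℕ) : ℝ) / (S : ℕ) * (c2 + d3 / D) := by
      have e : c2 + 1 / (D : ℝ) * d3 = c2 + d3 / D := by ring
      rw [e]
      refine mul_le_mul_of_nonneg_right hg2 ?_
      have : 0 ≤ d3 / D := div_nonneg q3 hD0.le
      linarith
    have key : H2 - ((N0 - N1 / D) + x3 * ((e2 : ℝ) / (S : ℕ) * (N1 - (N1 + N2) / D))) =
        H2 - (N0 - 1 / (D : ℝ) * N1 + ep B k L b * ((1 - 1 / (D : ℝ)) * N1 - 1 / (D : ℝ) * N2)) := by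
      rw [hx3e]
      ring
    rw [key]
    have hg10 : (((0 : ℕ) : ℕ) : ℝ) / (S : ℕ) = 0 := by simp
    rw [hg10, zero_mul, zero_add]
    exact r2.trans t2
  · have hP : par2 X j2 s b2 = ⟨0, 0, 0, 0, 0, e2, 0⟩ := if_neg hmode
    rw [hP]
    refine ⟨0, ⟨le_rfl, zero_le_one⟩, fun cf t den u ht ht1 hden hu hR2 => ?_⟩
    have r2 := row2_val1 (cf := cf) (η := (e2 : ℝ) / (S : ℕ)) (β := (b2 : ℝ) / (100 : ℕ))
      hm ht ht1 hden hu hb1p h hsb hR2 hy hepP hβ21 hβ2'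
    set N0 := mW cf u (1 / m) j2 w0
    set N1 := mW cf u (1 / m) j2 w1
    set N2 := mW cf u (1 / m) j2 w2
    set c1 := mB cf u (1 / m) j2 ((b2 : ℝ) / (100 : ℕ)) w1
    set c2 := mB cf u (1 / m) j2 ((b2 : ℝ) / (100 : ℕ)) w2
    set H2 := HIx (k + 2) m t cf.v.length (vC cf m den) (tauC cf m den) B (k + b) * den
    have t2 : (e2 : ℝ) / (S : ℕ) * (c1 + 1 / (D : ℝ) * c2) = (e2 : ℝ) / (S : ℕ) * (c1 + c2 / D) := by
      ring
    have key : H2 - ((N0 - N1 / D) + 0 * (((0 : ℕ) : ℝ) / (S : ℕ) * (N1 - (N1 + N2) / D))) =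
        H2 - (N0 - 1 / (D : ℝ) * N1) := by
      ring
    rw [key]
    have hg10 : (((0 : ℕ) : ℕ) : ℝ) / (S : ℕ) = 0 := by simp
    rw [hg10, zero_mul, add_zero]
    rw [t2] at r2
    exact r2

/-! ### row one, third mode -/

/-- a quotient in units -/
theorem un_quo {N D : ℕ} (hD : 0 < D) {z : ℝ} (hz : z * (S : ℕ) ≤ (N : ℝ)) :
    z / D * (S : ℕ) ≤ ((N / D + 1 : ℕ) : ℝ) := by
  have hD' : (0 : ℝ) < D := by exact_mod_cast hD
  have h1 := div_ceil (a := N) hD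
  rw [div_mul_eq_mul_div, div_le_iff₀ hD']
  exact hz.trans h1

/-- **row one in units** -/
theorem rowZ_fun {F : FD} {m t den k L b s : ℕ} {X : NI} {B : Finset ℕ} (hm : 0 < m) (hden : 0 < den)
    (hx : Mem (1 / (m : ℝ)) X) (hl : Lf F m t) (h : Two k L b s B)
    (hok : okZ X ((m : ℤ) - L) s = true) (h1 : LVt F X ((m : ℤ) - L) 100 = true) :
    |xD F m t den (k + 2) B (k + 1 + L) - (mW F.cf F.u (1 / m) ((m : ℤ) - L) w0 +
      mW F.cf F.u (1 / m) ((m : ℤ) - L) w1 / (L + 1 - b : ℕ))| * (S : ℕ) ≤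
      ((erZ F X ((m : ℤ) - L) (L + 1 - b) s : ℕ) : ℝ) := by
  have hS := S_posR
  have hbL := h.hbL
  have hD1 : 0 < L + 1 - b := by omega
  have hDR : ((L + 1 - b : ℕ) : ℝ) = (L : ℝ) + 1 - b := by
    rw [Nat.cast_sub (by omega)]
    push_cast
    ring
  obtain ⟨o1, o2⟩ := okZ_spec hok
  have ej : (m : ℤ) + 1 - ((L + 1 : ℕ) : ℤ) = (m : ℤ) - L := by
    push_cast
    ring
  obtain ⟨hsL, hη, -⟩ := epP_ok (b := L + 1) (s := s) hm hx (by rw [ej]; exact o1) (by rw [ej]; exact o2)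
  rw [ej] at hη
  have hη' : s / (((L : ℝ) + 2 - s) * (L + 2)) ≤ (epP X ((m : ℤ) - L) s : ℝ) / (S : ℕ) := by
    refine le_trans (le_of_eq ?_) hη
    push_cast
    ring
  have l1 := lv_ok hx h1
  obtain ⟨r1, -, -, r4⟩ := lvt_spec h1
  have hR := Rng_of hx r1
  have r := row1_val1 (cf := F.cf) (β := ((100 : ℕ) : ℝ) / (100 : ℕ)) hm hl.1 hl.2 hden r4 h hsL hR
    (y := 1 / ((L : ℝ) + 1 - b)) rfl hη' (by norm_num) (by norm_num)
  rw [← hDR] at r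
  have e1 := un_mul (n := epP X ((m : ℤ) - L) s) (M := (LV F X ((m : ℤ) - L) 100).b1 +
      (((LV F X ((m : ℤ) - L) 100).b1 / (L + 1 - b) + 1) + ((LV F X ((m : ℤ) - L) 100).b2 / (L + 1 - b) + 1)))
    (y := mB F.cf F.u (1 / m) ((m : ℤ) - L) (((100 : ℕ) : ℝ) / (100 : ℕ)) w1 +
      (mB F.cf F.u (1 / m) ((m : ℤ) - L) (((100 : ℕ) : ℝ) / (100 : ℕ)) w1 / (L + 1 - b : ℕ) +
        mB F.cf F.u (1 / m) ((m : ℤ) - L) (((100 : ℕ) : ℝ) / (100 : ℕ)) w2 / (L + 1 - b : ℕ))) (by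
      rw [cast3, add_mul, add_mul]
      exact add_le_add l1.h5 (add_le_add (un_quo hD1 l1.h5) (un_quo hD1 l1.h3)))
  refine le_trans (mul_le_mul_of_nonneg_right ?_ hS.le) e1
  refine le_trans (le_of_eq ?_) (r.trans (le_of_eq ?_))
  · unfold xD
    congr 1
    ring
  · ring

/-! ### `tQ` -/

/-- centre of `tQ` -/
noncomputable def cQ (F : FD) (x : ℝ) (j1 : ℤ) (D : ℕ) : ℝ :=
  pev F.c0 x + (mW F.cf F.u x j1 w0 + mW F.cf F.u x j1 w1 / D)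

theorem mem_vQ {F : FD} {x : ℝ} {X : NI} {j1 : ℤ} {D : ℕ} (hx : Mem x X) (hD : 0 < D)
    (h1 : LVt F X j1 100 = true) : MemS (cQ F x j1 D) (vQ F X j1 D) := by
  have l1 := lv_ok hx h1
  exact memS_add (memS_pev hx _) (memS_add l1.h0 (memS_sdiv hD l1.h1))

theorem Q_fun {F : FD} {m t den k L b s lo fr : ℕ} {X : NI} {B : Finset ℕ} (hm : 0 < m) (hden : 0 < den)
    (hx : Mem (1 / (m : ℝ)) X) (hl : Lf F m t) (h : Two k L b s B)
    (hok : okZ X ((m : ℤ) - L) s = true) (h1 : LVt F X ((m : ℤ) - L) 100 = true)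
    (hlo : |lD F m t den (k + 2) B (k + b)| * (S : ℕ) ≤ (lo : ℝ))
    (hfr : |xD F m t den (k + 2) B (k + b)| * (S : ℕ) ≤ (fr : ℝ)) :
    |fD F m t den (k + 2) B - cQ F (1 / m) ((m : ℤ) - L) (L + 1 - b)| * (S : ℕ) ≤
      ((erZ F X ((m : ℤ) - L) (L + 1 - b) s + (lo + fr) : ℕ) : ℝ) := by
  have hS := S_posR
  have r := rowZ_fun hm hden hx hl h hok h1
  rw [fD_two h, cast3]
  have key : |pev F.c0 (1 / m) + (xD F m t den (k + 2) B (k + 1 + L) + xD F m t den (k + 2) B (k + b)) +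
      lD F m t den (k + 2) B (k + b) - cQ F (1 / m) ((m : ℤ) - L) (L + 1 - b)| ≤
      |xD F m t den (k + 2) B (k + 1 + L) - (mW F.cf F.u (1 / m) ((m : ℤ) - L) w0 +
        mW F.cf F.u (1 / m) ((m : ℤ) - L) w1 / (L + 1 - b : ℕ))| +
      (|lD F m t den (k + 2) B (k + b)| + |xD F m t den (k + 2) B (k + b)|) := by
    refine le_trans (le_of_eq ?_) ((abs_add_le _ _).trans (add_le_add le_rfl (abs_add_le _ _)))
    congr 1
    unfold cQ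
    ring
  have h3 := mul_le_mul_of_nonneg_right key hS.le
  refine h3.trans ?_
  rw [add_mul, add_mul]
  exact add_le_add r (add_le_add hlo hfr)

theorem tQ_spec {Fa Fk Fb : FD} {X : NI} {j1 : ℤ} {D s : ℕ} {lo fr : N3}
    (h : tQ Fa Fk Fb X j1 D s lo fr = true) :
    okZ X j1 s = true ∧ (LVt Fa X j1 100 = true ∧ LVt Fk X j1 100 = true ∧ LVt Fb X j1 100 = true) ∧
    tst ⟨vQ Fa X j1 D, vQ Fk X j1 D, vQ Fb X j1 D⟩
      ⟨erZ Fa X j1 D s + (lo.a + fr.a), erZ Fk X j1 D s + (lo.k + fr.k), erZ Fb X j1 D s + (lo.b + fr.b)⟩ =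
      true := by
  unfold tQ at h
  simp only [Bool.and_eq_true] at h
  obtain ⟨h1, ⟨h2, h3, h4⟩, h5⟩ := h
  exact ⟨h1, ⟨h2, h3, h4⟩, h5⟩

theorem tQ_sound {Fa Fk Fb : FD} {X : NI} {m den ta tk tb k L b s : ℕ} {lo fr : N3} {B : Finset ℕ}
    (hm : 0 < m) (hden : 0 < den) (hx : Mem (1 / (m : ℝ)) X) (La : Lf Fa m ta) (Lk : Lf Fk m tk)
    (Lb : Lf Fb m tb) (h : Two k L b s B) (hN : L + b + s = 2 * m)
    (ht : tQ Fa Fk Fb X ((m : ℤ) - L) (L + 1 - b) s lo fr = true)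
    (hlo : LoOk Fa Fk Fb m ta tk tb den k b B lo) (hfr : XOk Fa Fk Fb m ta tk tb den k (k + b) B fr) :
    Cone Fa Fk Fb m ta tk tb den (k + 2) B := by
  obtain ⟨la, lk, lb⟩ := hlo
  obtain ⟨ra, rk, rb⟩ := hfr
  have hbL := h.hbL
  have hD0 : 0 < L + 1 - b := by omega
  obtain ⟨hok, ⟨a1, k1, b1⟩, htst⟩ := tQ_spec ht
  have hcone := Rc_of_tst (v := ⟨cQ Fa (1 / m) ((m : ℤ) - L) (L + 1 - b),
      cQ Fk (1 / m) ((m : ℤ) - L) (L + 1 - b), cQ Fb (1 / m) ((m : ℤ) - L) (L + 1 - b)⟩)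
    ⟨mem_vQ hx hD0 a1, mem_vQ hx hD0 k1, mem_vQ hx hD0 b1⟩ htst
  exact hcone.cone (F := ⟨fD Fa m ta den (k + 2) B, fD Fk m tk den (k + 2) B, fD Fb m tb den (k + 2) B⟩)
    (Q_fun hm hden hx La h hok a1 la ra) (Q_fun hm hden hx Lk h hok k1 lk rk)
    (Q_fun hm hden hx Lb h hok b1 lb rb)

/-! ### `tZ` -/

theorem Z_fun {F : FD} {m t den k L b s b2 lo : ℕ} {X : NI} {B : Finset ℕ} {P : Par} (hm : 0 < m)
    (hden : 0 < den) (hx : Mem (1 / (m : ℝ)) X) (hl : Lf F m t) (h : Two k L b s B)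
    (hok : okZ X ((m : ℤ) - L) s = true) (h1 : LVt F X ((m : ℤ) - L) 100 = true)
    (h2 : LVt F X ((m : ℤ) + 1 - b) b2 = true) {x3 : ℝ}
    (hr : |HIx (k + 2) m t F.cf.v.length (vC F.cf m den) (tauC F.cf m den) B (k + b) * den -
          ((mW F.cf F.u (1 / m) ((m : ℤ) + 1 - b) w0 - mW F.cf F.u (1 / m) ((m : ℤ) + 1 - b) w1 /
              (L + 1 - b : ℕ)) +
            x3 * ((P.ew : ℝ) / (S : ℕ) *
              (mW F.cf F.u (1 / m) ((m : ℤ) + 1 - b) w1 -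
                (mW F.cf F.u (1 / m) ((m : ℤ) + 1 - b) w1 + mW F.cf F.u (1 / m) ((m : ℤ) + 1 - b) w2) /
                  (L + 1 - b : ℕ))))| ≤
          (P.g1 : ℝ) / (S : ℕ) *
              (mB F.cf F.u (1 / m) ((m : ℤ) + 1 - b) ((b2 : ℝ) / (100 : ℕ)) w1 +
                mB F.cf F.u (1 / m) ((m : ℤ) + 1 - b) ((b2 : ℝ) / (100 : ℕ)) w2 / (L + 1 - b : ℕ)) +
            (P.g2 : ℝ) / (S : ℕ) *
              (mB F.cf F.u (1 / m) ((m : ℤ) + 1 - b) ((b2 : ℝ) / (100 : ℕ)) w2 +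
                mB F.cf F.u (1 / m) ((m : ℤ) + 1 - b) ((b2 : ℝ) / (100 : ℕ)) w3 / (L + 1 - b : ℕ)))
    (hlo : |lD F m t den (k + 2) B (k + b)| * (S : ℕ) ≤ (lo : ℝ)) :
    |fD F m t den (k + 2) B - (cP F (1 / m) ((m : ℤ) - L) ((m : ℤ) + 1 - b) (L + 1 - b) +
      0 * 0 + 0 * 0 + x3 * g3P F (1 / m) ((m : ℤ) + 1 - b) (L + 1 - b) P)| * (S : ℕ) ≤
      ((erP F X ((m : ℤ) - L) ((m : ℤ) + 1 - b) 100 b2 (L + 1 - b) P +
        (erZ F X ((m : ℤ) - L) (L + 1 - b) s + lo) : ℕ) : ℝ) := by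
  have hS := S_posR
  have hbL := h.hbL
  have hD : 0 < L + 1 - b := by omega
  have r := rowZ_fun hm hden hx hl h hok h1
  have l2 := lv_ok hx h2
  have e2 := un_mul (n := P.g1) (un_div hD l2.h5 l2.h3)
  have e3 := un_mul (n := P.g2) (un_div hD l2.h3 l2.h4)
  have hr' := mul_le_mul_of_nonneg_right hr hS.le
  rw [fD_two h, cast3]
  have key : |pev F.c0 (1 / m) + (xD F m t den (k + 2) B (k + 1 + L) + xD F m t den (k + 2) B (k + b)) +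
      lD F m t den (k + 2) B (k + b) - (cP F (1 / m) ((m : ℤ) - L) ((m : ℤ) + 1 - b) (L + 1 - b) +
      0 * 0 + 0 * 0 + x3 * g3P F (1 / m) ((m : ℤ) + 1 - b) (L + 1 - b) P)| ≤
      |HIx (k + 2) m t F.cf.v.length (vC F.cf m den) (tauC F.cf m den) B (k + b) * den -
          ((mW F.cf F.u (1 / m) ((m : ℤ) + 1 - b) w0 - mW F.cf F.u (1 / m) ((m : ℤ) + 1 - b) w1 /
              (L + 1 - b : ℕ)) +
            x3 * ((P.ew : ℝ) / (S : ℕ) *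
              (mW F.cf F.u (1 / m) ((m : ℤ) + 1 - b) w1 -
                (mW F.cf F.u (1 / m) ((m : ℤ) + 1 - b) w1 + mW F.cf F.u (1 / m) ((m : ℤ) + 1 - b) w2) /
                  (L + 1 - b : ℕ))))| +
      (|xD F m t den (k + 2) B (k + 1 + L) - (mW F.cf F.u (1 / m) ((m : ℤ) - L) w0 +
        mW F.cf F.u (1 / m) ((m : ℤ) - L) w1 / (L + 1 - b : ℕ))| +
      |lD F m t den (k + 2) B (k + b)|) := by
    refine le_trans (le_of_eq ?_) ((abs_add_le _ _).trans (add_le_add le_rfl (abs_add_le _ _)))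
    congr 1
    unfold xD cP g3P
    ring
  have h3 := mul_le_mul_of_nonneg_right key hS.le
  refine h3.trans ?_
  rw [add_mul, add_mul]
  refine add_le_add (hr'.trans ?_) (add_le_add r hlo)
  rw [add_mul]
  unfold erP
  rw [cast3]
  have h4 : (0 : ℝ) ≤ ((P.c3 * (LV F X ((m : ℤ) - L) 100).b3 / S + 1 : ℕ) : ℝ) := Nat.cast_nonneg _
  linarith

theorem tZ_spec {Fa Fk Fb : FD} {X : NI} {j1 j2 : ℤ} {D s b2 : ℕ} {lo : N3}
    (h : tZ Fa Fk Fb X j1 j2 D s b2 lo = true) :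
    (okZ X j1 s = true ∧ okR2 X j2 s = true) ∧
    (LVt Fa X j1 100 = true ∧ LVt Fa X j2 b2 = true ∧ LVt Fk X j1 100 = true ∧ LVt Fk X j2 b2 = true ∧
      LVt Fb X j1 100 = true ∧ LVt Fb X j2 b2 = true) ∧
    box ⟨vP Fa X j1 j2 100 b2 D, vP Fk X j1 j2 100 b2 D, vP Fb X j1 j2 100 b2 D⟩ zero3 zero3
      ⟨wP3 Fa X j2 b2 D (par2 X j2 s b2), wP3 Fk X j2 b2 D (par2 X j2 s b2), wP3 Fb X j2 b2 D (par2 X j2 s b2)⟩
      ⟨erP Fa X j1 j2 100 b2 D (par2 X j2 s b2) + (erZ Fa X j1 D s + lo.a),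
        erP Fk X j1 j2 100 b2 D (par2 X j2 s b2) + (erZ Fk X j1 D s + lo.k),
        erP Fb X j1 j2 100 b2 D (par2 X j2 s b2) + (erZ Fb X j1 D s + lo.b)⟩ = true := by
  unfold tZ at h
  simp only [Bool.and_eq_true] at h
  obtain ⟨⟨h0, h1⟩, ⟨h2, h3, h4, h5, h6, h7⟩, h8⟩ := h
  exact ⟨⟨h0, h1⟩, ⟨h2, h3, h4, h5, h6, h7⟩, h8⟩

theorem tZ_sound {Fa Fk Fb : FD} {X : NI} {m den ta tk tb k L b s b2 : ℕ} {lo : N3} {B : Finset ℕ}
    (hm : 0 < m) (hden : 0 < den) (hx : Mem (1 / (m : ℝ)) X) (La : Lf Fa m ta) (Lk : Lf Fk m tk)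
    (Lb : Lf Fb m tb) (h : Two k L b s B) (hN : L + b + s = 2 * m)
    (ht : tZ Fa Fk Fb X ((m : ℤ) - L) ((m : ℤ) + 1 - b) (L + 1 - b) s b2 lo = true)
    (hlo : LoOk Fa Fk Fb m ta tk tb den k b B lo) : Cone Fa Fk Fb m ta tk tb den (k + 2) B := by
  obtain ⟨la, lk, lb⟩ := hlo
  have hbL := h.hbL
  have hD0 : 0 < L + 1 - b := by omega
  obtain ⟨⟨hok1, hok2⟩, ⟨a1, a2, k1, k2, b1', b2'⟩, hbox⟩ := tZ_spec ht
  obtain ⟨x3, hx3, hall⟩ := row2_rows hm hx h rfl (lvt_spec a2).2.2.1 (lvt_spec a2).2.1 hok2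
  have ra := Z_fun hm hden hx La h hok1 a1 a2
    (hall Fa.cf ta den Fa.u La.1 La.2 hden (lvt_spec a2).2.2.2 (Rng_of hx (lvt_spec a2).1)) la
  have rk := Z_fun hm hden hx Lk h hok1 k1 k2
    (hall Fk.cf tk den Fk.u Lk.1 Lk.2 hden (lvt_spec k2).2.2.2 (Rng_of hx (lvt_spec k2).1)) lk
  have rb := Z_fun hm hden hx Lb h hok1 b1' b2'
    (hall Fb.cf tb den Fb.u Lb.1 Lb.2 hden (lvt_spec b2').2.2.2 (Rng_of hx (lvt_spec b2').1)) lb
  exact box_sound hbox (v := ⟨cP Fa (1 / m) ((m : ℤ) - L) ((m : ℤ) + 1 - b) (L + 1 - b),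
      cP Fk (1 / m) ((m : ℤ) - L) ((m : ℤ) + 1 - b) (L + 1 - b),
      cP Fb (1 / m) ((m : ℤ) - L) ((m : ℤ) + 1 - b) (L + 1 - b)⟩)
    (w1 := ⟨0, 0, 0⟩) (w2 := ⟨0, 0, 0⟩)
    (w3 := ⟨g3P Fa (1 / m) ((m : ℤ) + 1 - b) (L + 1 - b) _, g3P Fk (1 / m) ((m : ℤ) + 1 - b) (L + 1 - b) _,
      g3P Fb (1 / m) ((m : ℤ) + 1 - b) (L + 1 - b) _⟩)
    ⟨mem_vP hx hD0 a1 a2, mem_vP hx hD0 k1 k2, mem_vP hx hD0 b1' b2'⟩
    ⟨memS_zero, memS_zero, memS_zero⟩ ⟨memS_zero, memS_zero, memS_zero⟩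
    ⟨mem_wP3 hx hD0 a2, mem_wP3 hx hD0 k2, mem_wP3 hx hD0 b2'⟩
    (x1 := 0) (x2 := 0) ⟨le_rfl, zero_le_one⟩ ⟨le_rfl, zero_le_one⟩ hx3
    (F := ⟨fD Fa m ta den (k + 2) B, fD Fk m tk den (k + 2) B, fD Fb m tb den (k + 2) B⟩) ra rk rb

end Pool.NW
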