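import Pool.Agent.Work.MP_46fa68_18.MoP3

/-!
# The point checker with the error of the rows `≥ 3` by the cap `min (s, b)`
-/

set_option autoImplicit false

open Finset

namespace Pool.NW

open Pool.NV Pool.OB Pool.JM

/-- the error of the rows `≥ 3`, cap `c` -/
def DatQ.lc (Q : DatQ) (c : ℕ) : N3 := Q.D.lows.getD c Q.D.low

/-- one pair -/
def chkPR (Q : DatQ) (X : NI) (m i1 i2 : ℕ) : Bool :=
  Nat.ble i2 i1 || (Nat.ble (i1 + i2) (2 * Q.D.o) || (memR Q.D.R i1 i2 ||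
    (bif Nat.beq (Q.md i1 i2).md 0 then
      tP Q.D.a Q.D.k Q.D.b X (jj Q.D.o i1) (jj Q.D.o i2) (i2 - i1) (i1 + i2 - 2 * Q.D.o - 1)
        (Q.md i1 i2).b1 (Q.md i1 i2).b2 (Q.lc (min (i1 + i2 - 2 * Q.D.o - 1) (m + 1 + Q.D.o - i2)))
    else bif Nat.beq (Q.md i1 i2).md 1 then
      tZ Q.D.a Q.D.k Q.D.b X (jj Q.D.o i1) (jj Q.D.o i2) (i2 - i1) (i1 + i2 - 2 * Q.D.o - 1)
        (Q.md i1 i2).b2 (Q.lc (min (i1 + i2 - 2 * Q.D.o - 1) (m + 1 + Q.D.o - i2)))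
    else
      ((Nat.ble Q.fo i2 && Nat.ble (i2 + 1) (Q.fo + Q.f2.length)) &&
      tQ Q.D.a Q.D.k Q.D.b X (jj Q.D.o i1) (i2 - i1) (i1 + i2 - 2 * Q.D.o - 1)
        (Q.lc (min (i1 + i2 - 2 * Q.D.o - 1) (m + 1 + Q.D.o - i2))) (Q.f2.getD (i2 - Q.fo) z3)))))

/-- one row -/
def chkRowR (Q : DatQ) (X : NI) (m i1 : ℕ) : Bool :=
  ((List.range (Q.D.J2.getD i1 0 + 1)).all fun i2 => chkPR Q X m i1 i2) &&
  (bif Nat.ble Q.dro i1 then
    (Nat.ble (i1 + 1) (Q.dro + Q.dr.length) &&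
      tD Q.D.a Q.D.k Q.D.b X (Q.lc (m + Q.D.o - Q.D.J2.getD i1 0)) (Q.dr.getD (i1 - Q.dro) z3))
  else
    tF Q.D.a Q.D.k Q.D.b X (jj Q.D.o i1) (Q.D.J2.getD i1 0 + 1 - i1) (Q.rb.getD i1 100)
      (Q.lc (m + Q.D.o - Q.D.J2.getD i1 0)) (Q.D.far.getD i1 z3))

/-- everything but the rows -/
def chkEndR (D : Dat) (X : NI) (m : ℕ) : Bool :=
  Nat.ble D.a.cf.v.length (D.o + 2) && (Nat.ble D.k.cf.v.length (D.o + 2) && (Nat.ble D.b.cf.v.length (D.o + 2) &&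
    (tC D.a D.k D.b X D.low D.farn &&
      tD D.a D.k D.b X (D.lows.getD (m + D.o - D.n1) D.low) D.deep)))

def chkR (Q : DatQ) (X : NI) (m : ℕ) : Bool :=
  chkEndR Q.D X m && (List.range Q.D.n1).all fun i1 => chkRowR Q X m i1

/-- the error budgets of one function -/
structure BudR (Q : DatQ) (F : FD) (sel : N3 → ℕ) (m t den : ℕ) : Prop where
  q : BudQ Q F sel m t den
  lc : ∀ (k L b s c : ℕ) (B : Finset ℕ), Two k L b s B → L + b + s = 2 * m → (s ≤ c ∨ b ≤ c) →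
    |lD F m t den (k + 2) B (k + b)| * (S : ℕ) ≤ (sel (Q.lc c) : ℝ)

/-- **THE MAIN THEOREM.** -/
theorem chkR_sound {Q : DatQ} {X : NI} {m den ta tk tb : ℕ} (hc : chkR Q X m = true) (hm : 0 < m)
    (hden : 0 < den) (hx : Mem (1 / (m : ℝ)) X) (Ha : BudR Q Q.D.a N3.a m ta den)
    (Hk : BudR Q Q.D.k N3.k m tk den) (Hb : BudR Q Q.D.b N3.b m tb den) {k L b s : ℕ} {B : Finset ℕ}
    (h : Two k L b s B) (hN : L + b + s = 2 * m)
    (hR : ∀ i1 i2 : ℕ, (i1 : ℤ) = (m : ℤ) - L + Q.D.o → (i2 : ℤ) = (m : ℤ) + 1 - b + Q.D.o →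
      memR Q.D.R i1 i2 = false) : Cone Q.D.a Q.D.k Q.D.b m ta tk tb den (k + 2) B := by
  have hbL := h.hbL
  have La : Lf Q.D.a m ta := ⟨Ha.q.bud.ht, Ha.q.bud.ht1⟩
  have Lk : Lf Q.D.k m tk := ⟨Hk.q.bud.ht, Hk.q.bud.ht1⟩
  have Lb : Lf Q.D.b m tb := ⟨Hb.q.bud.ht, Hb.q.bud.ht1⟩
  have hlow : LoOk Q.D.a Q.D.k Q.D.b m ta tk tb den k b B Q.D.low :=
    ⟨Ha.q.bud.low k L b s B h hN, Hk.q.bud.low k L b s B h hN, Hb.q.bud.low k L b s B h hN⟩
  have hlc : ∀ c : ℕ, (s ≤ c ∨ b ≤ c) → LoOk Q.D.a Q.D.k Q.D.b m ta tk tb den k b B (Q.lc c) :=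
    fun c hc => ⟨Ha.lc k L b s c B h hN hc, Hk.lc k L b s c B h hN hc, Hb.lc k L b s c B h hN hc⟩
  unfold chkR at hc
  rw [Bool.and_eq_true] at hc
  obtain ⟨hend, hrows⟩ := hc
  unfold chkEndR at hend
  rw [Bool.and_eq_true, Bool.and_eq_true, Bool.and_eq_true, Bool.and_eq_true, Nat.ble_eq, Nat.ble_eq,
    Nat.ble_eq] at hend
  obtain ⟨la, lk, lb, hC, hD⟩ := hend
  rcases lt_or_ge ((m : ℤ) - L + Q.D.o) 0 with hneg | hpos
  · -- constant first row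
    exact tC_sound hm hden hx La Lk Lb h (by omega) (by omega) (by omega) hC hlow
      ⟨Ha.q.bud.farn k L b s B h hN hneg, Hk.q.bud.farn k L b s B h hN hneg,
        Hb.q.bud.farn k L b s B h hN hneg⟩
  rcases lt_or_ge ((m : ℤ) - L + Q.D.o) (Q.D.n1 : ℤ) with hlt | hge
  swap
  · -- far first bead
    exact tD_sound hx h hD (hlc _ (Or.inr (by omega)))
      ⟨Ha.q.bud.deep k L b s B h hN hge, Hk.q.bud.deep k L b s B h hN hge,
        Hb.q.bud.deep k L b s B h hN hge⟩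
  -- a row
  obtain ⟨i1, hi1⟩ : ∃ i1 : ℕ, (i1 : ℤ) = (m : ℤ) - L + Q.D.o :=
    ⟨((m : ℤ) - L + Q.D.o).toNat, by omega⟩
  obtain ⟨i2, hi2⟩ : ∃ i2 : ℕ, (i2 : ℤ) = (m : ℤ) + 1 - b + Q.D.o :=
    ⟨((m : ℤ) + 1 - b + Q.D.o).toNat, by omega⟩
  have hi1n : i1 < Q.D.n1 := by omega
  have hrow := all_range hrows hi1n
  unfold chkRowR at hrow
  rw [Bool.and_eq_true] at hrow
  obtain ⟨hpairs, hrest⟩ := hrow
  have j1e : jj Q.D.o i1 = (m : ℤ) - L := by unfold jj; omega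
  have j2e : jj Q.D.o i2 = (m : ℤ) + 1 - b := by unfold jj; omega
  rcases Nat.lt_or_ge i2 (Q.D.J2.getD i1 0 + 1) with hJ | hJ
  · -- pair class
    have hp := all_range hpairs hJ
    unfold chkPR at hp
    rw [Bool.or_eq_true, Bool.or_eq_true, Bool.or_eq_true, Nat.ble_eq, Nat.ble_eq,
      hR i1 i2 hi1 hi2] at hp
    rcases hp with hp | hp | hp | hp
    · omega
    · omega
    · exact absurd hp (by simp)
    have es : i1 + i2 - 2 * Q.D.o - 1 = s := by omega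
    have eb : m + 1 + Q.D.o - i2 = b := by omega
    have eD : i2 - i1 = L + 1 - b := by omega
    have hlows := hlc (min s b) (by omega)
    rw [es, eb, eD, j1e, j2e] at hp
    cases h0 : Nat.beq (Q.md i1 i2).md 0
    · rw [h0, cond_false] at hp
      cases h1 : Nat.beq (Q.md i1 i2).md 1
      · rw [h1, cond_false, Bool.and_eq_true, Bool.and_eq_true, Nat.ble_eq, Nat.ble_eq] at hp
        obtain ⟨⟨f1, f2⟩, hq⟩ := hp
        exact tQ_sound hm hden hx La Lk Lb h hN hq hlows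
          ⟨Ha.q.f2 k L b s B i2 h hN hi2 f1 (by omega), Hk.q.f2 k L b s B i2 h hN hi2 f1 (by omega),
            Hb.q.f2 k L b s B i2 h hN hi2 f1 (by omega)⟩
      · rw [h1, cond_true] at hp
        exact tZ_sound hm hden hx La Lk Lb h hN hp hlows
    · rw [h0, cond_true] at hp
      exact tP_sound hm hden hx La Lk Lb h hN hp hlows
  · -- the rest of a row
    have hJ' : ((Q.D.J2.getD i1 0 : ℕ) : ℤ) < (m : ℤ) + 1 - b + Q.D.o := by omega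
    have hDD : Q.D.J2.getD i1 0 + 1 - i1 ≤ L + 1 - b := by omega
    have hlr := hlc (m + Q.D.o - Q.D.J2.getD i1 0) (Or.inr (by omega))
    rw [j1e] at hrest
    cases h0 : Nat.ble Q.dro i1
    · rw [h0, cond_false] at hrest
      exact tF_sound hm hden hx La Lk Lb h hN hDD hrest hlr
        ⟨Ha.q.bud.far k L b s B i1 h hN hi1 hi1n hJ', Hk.q.bud.far k L b s B i1 h hN hi1 hi1n hJ',
          Hb.q.bud.far k L b s B i1 h hN hi1 hi1n hJ'⟩
    · rw [h0, cond_true, Bool.and_eq_true, Nat.ble_eq] at hrest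
      obtain ⟨f1, hq⟩ := hrest
      rw [Nat.ble_eq] at h0
      exact tD_sound hx h hq hlr
        ⟨Ha.q.dr k L b s B i1 h hN hi1 hJ' h0 (by omega), Hk.q.dr k L b s B i1 h hN hi1 hJ' h0 (by omega),
          Hb.q.dr k L b s B i1 h hN hi1 hJ' h0 (by omega)⟩

end Pool.NW
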