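import Pool.Agent.Work.MP_46fa68_18.MoR1
import Pool.Agent.Work.MP_46fa68_18.MoP8
import Pool.Agent.Work.MP_46fa68_38.ModeA3

/-!
# Budgets and the cone at a point for the checker `chkR`
-/

set_option autoImplicit false

open Finset

namespace Pool.NW

open Pool.NV Pool.OB Pool.JM Pool.JM.FR Pool.EGP

/-- **the budgets** -/
theorem budR_of {Q : DatQ} {F : FD} {sel : N3 → ℕ} {m nC : ℕ} {X : NI}
    (hok : okBudA Q F sel m nC X = true) {den t : ℕ} (hden : 0 < den) (ht : (t : ℤ) + F.u = (m : ℤ))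
    (hX : Mem (1 / (m : ℝ)) X) : BudR Q F sel m t den := by
  have hq := budA_of hok hden ht hX
  unfold okBudA at hok
  simp only [Bool.and_eq_true] at hok
  obtain ⟨⟨hu, h17, hZ, hn⟩, ⟨hlow, hlows⟩, hfar, hfarn, hdeep, hf2, hdr⟩ := hok
  rw [decide_eq_true_eq] at hu
  rw [Nat.ble_eq] at h17 hn
  have hA : Adm F.u F.cf m 0 t := ⟨hu, h17, ht, fun h1 => (oZ_spec hZ h1).1⟩
  have hlen : F.u = 1 → 1 ≤ F.cf.v.length := fun h1 => (oZ_spec hZ h1).2
  have hden0 : (0 : ℝ) ≤ den := Nat.cast_nonneg den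
  have eL : ∀ (K : ℕ) (B : Finset ℕ) (x : ℕ), |lD F m t den K B x| =
      |HL K m t F.cf.v.length (vC F.cf m den) (tauC F.cf m den) B x| * den := by
    intro K B x
    unfold lD
    rw [abs_mul, abs_of_nonneg hden0]
  refine ⟨hq, ?_⟩
  intro k L b s c B hT hN hc
  unfold DatQ.lc
  rcases Nat.lt_or_ge c Q.D.lows.length with hs | hs
  · have h := all_range hlows hs
    unfold oLow at h
    rw [Bool.and_eq_true, Nat.ble_eq] at h
    rw [eL]
    rcases hc with hc | hc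
    · refine (bud_low (d := 0) hA hden hX hlen h.1 hT hN
        (Or.inl (hc.trans (le_max_right 3 c)))).trans ?_
      exact_mod_cast h.2
    · refine (bud_low_b (d := 0) hA hden hX hlen h.1 hT hN (hc.trans (le_max_right 3 c))).trans ?_
      exact_mod_cast h.2
  · rw [List.getD_eq_default _ _ hs]
    exact hq.bud.low k L b s B hT hN

/-- **the cone at the point `m`** -/
theorem coneR_of {Q : DatQ} {F1 F2 F3 : FD} {J : List (ℤ × ℤ)} {m t1 t2 t3 nC : ℕ} (hm : 2 ≤ m)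
    (ha : Q.D.a = F1) (hk : Q.D.k = F2) (hb : Q.D.b = F3) (ho : Q.D.o = 12) (hR : Q.D.R = toR 12 J)
    (hJ : ∀ p ∈ J, 0 ≤ p.1 + ((12 : ℕ) : ℤ) ∧ 0 ≤ p.2 + ((12 : ℕ) : ℤ))
    (hrun : chkR Q (rat 1 m) m = true)
    (h1 : (t1 : ℤ) + F1.u = m) (h2 : (t2 : ℤ) + F2.u = m) (h3 : (t3 : ℤ) + F3.u = m)
    (oA : okBudA Q F1 N3.a m nC (rat 1 m) = true) (oK : okBudA Q F2 N3.k m nC (rat 1 m) = true)
    (oB : okBudA Q F3 N3.b m nC (rat 1 m) = true) {k L b s : ℕ} {B : Finset ℕ} (h : Two k L b s B)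
    (hN : L + b + s = 2 * m) (hn : ((m : ℤ) - L, (m : ℤ) + 1 - b) ∉ J) :
    Cone F1 F2 F3 m t1 t2 t3 1000 (k + 2) B := by
  have hx := mem_pt (show 0 < m by omega)
  have Ha := budR_of (den := 1000) oA (by norm_num) h1 hx
  have Hk := budR_of (den := 1000) oK (by norm_num) h2 hx
  have Hb := budR_of (den := 1000) oB (by norm_num) h3 hx
  have hc := chkR_sound (ta := t1) (tk := t2) (tb := t3) hrun (by omega)
    (show 0 < 1000 by norm_num) hx (by rw [ha]; exact Ha) (by rw [hk]; exact Hk) (by rw [hb]; exact Hb)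
    h hN (by
      intro i1 i2 e1 e2
      rw [hR]
      rw [ho] at e1 e2
      exact memR_of hJ e1 e2 hn)
  rw [ha, hk, hb] at hc
  exact hc

end Pool.NW
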