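import Pool.Agent.Work.MP_46fa68_38.ModeA2

/-!
# Mode A with signs for the first row

For the top bead all the ratios are `≥ 0`, so positive and negative coefficients are summed separately.
-/

set_option autoImplicit false

open Finset

namespace Pool.JM.FR

open Pool.OB Pool.NV Pool.NW

/-- upper bound of a number in units -/
def posS (X : PN) : ℕ := X.p.hi - X.n.lo

/-- upper bound of the opposite of a number in units -/
def ngS (X : PN) : ℕ := X.n.hi - X.p.lo

theorem le_posS {x : ℝ} {X : PN} (hx : MemS x X) : 1 * x * ((S : ℕ) : ℝ) ≤ ((posS X : ℕ) : ℝ) := by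
  obtain ⟨a, b, h1, h2, rfl⟩ := hx
  unfold posS
  have c2 := h1.2
  have c3 := h2.1
  have d1 := cast_tsub_ge X.p.hi X.n.lo
  linarith

theorem le_ngS {x : ℝ} {X : PN} (hx : MemS x X) : (-1) * x * ((S : ℕ) : ℝ) ≤ ((ngS X : ℕ) : ℝ) := by
  obtain ⟨a, b, h1, h2, rfl⟩ := hx
  unfold ngS
  have c2 := h1.1
  have c3 := h2.2
  have d1 := cast_tsub_ge X.n.hi X.p.lo
  linarith

/-- the ratios of the top bead are `≥ 0` -/
theorem Rr_top {B : Finset ℕ} {x : ℕ} (h : up B x = 0) (p : ℕ) : 0 ≤ Rr B x p := by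
  unfold Rr
  refine mul_nonneg (prod_nonneg fun y hy => ?_) (by positivity)
  obtain ⟨h1, h2⟩ := mem_erase.1 hy
  have h3 : ¬ x < y := by
    intro h4
    unfold up at h
    rw [card_eq_zero, filter_eq_empty_iff] at h
    exact h h2 h4
  have h5 : (y : ℝ) < x := by
    have : y < x := by omega
    exact_mod_cast this
  have hp : (0 : ℝ) ≤ p := Nat.cast_nonneg p
  exact div_nonneg (by linarith) (by linarith)

def mH (g : PN → ℕ) (C : CI) (u : ℤ) (X : NI) (j : ℤ) (t c len R p : ℕ) : ℕ :=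
  (g (NW.kapI C u X j p) * qN t c len R p) / qD c len R p + 1

def mG (g : PN → ℕ) (C : CI) (u : ℤ) (X : NI) (j : ℤ) (t c len R : ℕ) : ℕ → ℕ
  | 0 => 0
  | n + 1 => mG g C u X j t c len R n + mH g C u X j t c len R n

/-- one side of the first row of length `len` -/
def mSg (g : PN → ℕ) (u : ℤ) (m1 : ℕ) (cf : Cf) (X : NI) (c len : ℕ) : ℕ :=
  let t := ((m1 : ℤ) - u).toNat
  let R := 2 * m1 - (c + 1) * len
  let C := evC cf X
  mG g C u X ((m1 : ℤ) + c - len) t c len R 30 +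
    (2 * (VN C * (30 * 2 ^ 30) * qN t c len R 30) / qD c len R 30 + 1)

theorem mode_G {g : PN → ℕ} {e : ℝ} (he : |e| = 1)
    (hg : ∀ (x : ℝ) (Y : PN), MemS x Y → e * x * ((S : ℕ) : ℝ) ≤ ((g Y : ℕ) : ℝ))
    {u : ℤ} {cf : Cf} {m1 t den K c len : ℕ} {X : NI} (hc0 : c = 0) (hm1 : 0 < m1)
    (ht : (t : ℤ) + u = m1) (hden : 0 < den) (hX : Mem (1 / (m1 : ℝ)) X)
    (hok : okA u m1 X c len = true) {B : Finset ℕ} (hB : B ∈ Lv K (2 * m1)) {x : ℕ} (hx : x ∈ B)
    (hc : up B x = c) (hlen : rl B x = len) :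
    e * HIx K m1 t cf.v.length (vC cf m1 den) (tauC cf m1 den) B x * den * (S : ℕ) ≤
      (mSg g u m1 cf X c len : ℕ) := by
  unfold okA at hok
  simp only [Bool.and_eq_true, decide_eq_true_eq] at hok
  obtain ⟨⟨⟨⟨⟨⟨⟨o1, o2⟩, o3⟩, o4⟩, o5⟩, o6⟩, o7⟩, o8⟩ := hok
  have htt : ((m1 : ℤ) - u).toNat = t := by omega
  rw [htt] at o1 o2
  set R := 2 * m1 - (c + 1) * len with hR
  set j : ℤ := (m1 : ℤ) + c - len with hj
  set xr : ℝ := (R : ℝ) / len with hxr
  have hlR : (0 : ℝ) < len := by exact_mod_cast o4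
  have hxr0 : 0 ≤ xr := by positivity
  have hdR : (0 : ℝ) < den := by exact_mod_cast hden
  have hS : (0 : ℝ) < ((S : ℕ) : ℝ) := by norm_num [S]
  have hmR : (0 : ℝ) < m1 := by exact_mod_cast hm1
  -- the layer
  have hlay : ((K - 1 + m1 : ℕ) : ℤ) - x = j := by
    obtain ⟨a, R', h1, h2, -, -⟩ := bead_data hB hx
    have hup : up B x = (B.filter (x < ·)).card := rfl
    have hdn : dn B x = (B.filter (· < x)).card := rfl
    rw [hc] at hup
    unfold rl at hlen
    rw [hdn] at hlen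
    omega
  -- the ratios
  have hRr : ∀ p, |Rr B x p| ≤ Cb c p * nuR p len xr := by
    obtain ⟨-, -, h3⟩ := Rr_all hB hx
    rw [hc, hlen] at h3
    obtain ⟨y, hy0, hyX, hy⟩ := h3 o4
    intro p
    refine (hy p).trans (mul_le_mul_of_nonneg_left (nuR_mono _ _ hy0 (hyX.trans (le_of_eq ?_)))
      (Cb_nonneg _ _))
    unfold Xn
    rw [hxr, hR, Nat.cast_sub o7]
    push_cast
    ring
  have hR0 : ∀ p, 0 ≤ Rr B x p := Rr_top (hc.trans hc0)
  set F : ℕ → ℝ := fun p => max (e * NW.kap cf u (1 / (m1 : ℝ)) j p) 0 * Qp t c len xr p with hF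
  have hF0 : ∀ p, 0 ≤ F p := fun p => mul_nonneg (le_max_right _ _) (Qp_nonneg hxr0 p)
  set k : ℕ → ℝ := fun p => kl t cf.v.length (vC cf m1 den) (tauC cf m1 den) j p * Rr B x p with hk
  have hkF : ∀ p, e * k p * den ≤ F p := by
    intro p
    have e1 := kl_kap (cf := cf) (den := den) (j := j) hm1 ht o1 hden p
    have e2 : e * k p * den = e * (kl t cf.v.length (vC cf m1 den) (tauC cf m1 den) j p * den) *
        Rr B x p := by
      simp only [hk]
      ring
    rw [e2, e1]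
    simp only [hF]
    unfold Qp
    have h1 : Rr B x p ≤ Cb c p * nuR p len xr := (le_abs_self _).trans (hRr p)
    have h2 : (0 : ℝ) ≤ ((t + p - 1).choose p : ℝ) := Nat.cast_nonneg _
    have h3 : (0 : ℝ) ≤ max (e * NW.kap cf u (1 / (m1 : ℝ)) j p) 0 := le_max_right _ _
    calc e * (((t + p - 1).choose p : ℝ) * NW.kap cf u (1 / (m1 : ℝ)) j p) * Rr B x p
        = (e * NW.kap cf u (1 / (m1 : ℝ)) j p) * (((t + p - 1).choose p : ℝ) * Rr B x p) := by ring
      _ ≤ max (e * NW.kap cf u (1 / (m1 : ℝ)) j p) 0 * (((t + p - 1).choose p : ℝ) * Rr B x p) :=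
          mul_le_mul_of_nonneg_right (le_max_left _ _) (mul_nonneg h2 (hR0 p))
      _ ≤ max (e * NW.kap cf u (1 / (m1 : ℝ)) j p) 0 *
            (((t + p - 1).choose p : ℝ) * (Cb c p * nuR p len xr)) :=
          mul_le_mul_of_nonneg_left (mul_le_mul_of_nonneg_left h1 h2) h3
  -- the first 30 terms
  have hT : ∀ p, F p * (S : ℕ) ≤
      (mH g (evC cf X) u X j t c len R p : ℕ) := by
    intro p
    have h1 := NW.memS_kapI (cf := cf) hX o5 j p
    have h2 : max (e * NW.kap cf u (1 / (m1 : ℝ)) j p) 0 * ((S : ℕ) : ℝ) ≤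
        ((g (NW.kapI (evC cf X) u X j p) : ℕ) : ℝ) := by
      rcases le_total (e * NW.kap cf u (1 / (m1 : ℝ)) j p) 0 with h | h
      · rw [max_eq_right h, zero_mul]
        exact Nat.cast_nonneg _
      · rw [max_eq_left h]
        exact hg _ _ h1
    have h3 := div_le_floor (g (NW.kapI (evC cf X) u X j p) * qN t c len R p) (qD c len R p)
      (qD_pos o4)
    unfold mH
    refine le_trans ?_ h3
    simp only [hF]
    rw [hxr, Qp_eq o4]
    push_cast
    have hq : (0 : ℝ) ≤ (qN t c len R p : ℝ) / (qD c len R p : ℝ) := by positivity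
    calc _ = (max (e * NW.kap cf u (1 / (m1 : ℝ)) j p) 0 * (S : ℕ)) *
            ((qN t c len R p : ℝ) / (qD c len R p : ℝ)) := by
          ring
      _ ≤ (g (NW.kapI (evC cf X) u X j p) : ℝ) * ((qN t c len R p : ℝ) / (qD c len R p : ℝ)) :=
          mul_le_mul_of_nonneg_right h2 hq
      _ = _ := by ring
  have hSum : ∀ n, (∑ p ∈ range n, F p) * (S : ℕ) ≤ (mG g (evC cf X) u X j t c len R n : ℕ) := by
    intro n
    induction n with
    | zero => simp [mG]
    | succ n ih =>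
      rw [sum_range_succ, add_mul, mG]
      push_cast
      exact add_le_add ih (hT n)
  -- the tail
  have hV := VR_le (cf := cf) hX
  have hV0 := VR_nonneg cf (1 / (m1 : ℝ))
  have hx0 : (0 : ℝ) ≤ 1 / (m1 : ℝ) := by positivity
  have hTl : ∀ k', F (30 + k') ≤ VR cf (1 / (m1 : ℝ)) * (30 * 2 ^ 30 * Qp t c len xr 30) *
      (1 / 2) ^ k' := by
    intro k'
    have h1 := NW.abs_kap_le (cf := cf) (u := u) (j := j) (d := 30 + k') hx0 (by push_cast; omega) (by omega)
    have h2 := tail_geo (c := c) (len := len) o1 o2 o3 hxr0 k'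
    have h3 := Qp_nonneg (t := t) (c := c) (len := len) hxr0 (30 + k')
    have h4 : max (e * NW.kap cf u (1 / (m1 : ℝ)) j (30 + k')) 0 ≤
        |NW.kap cf u (1 / (m1 : ℝ)) j (30 + k')| := by
      refine max_le ?_ (abs_nonneg _)
      refine (le_abs_self _).trans ?_
      rw [abs_mul, he, one_mul]
    simp only [hF]
    calc _ ≤ |NW.kap cf u (1 / (m1 : ℝ)) j (30 + k')| * Qp t c len xr (30 + k') :=
          mul_le_mul_of_nonneg_right h4 h3
      _ ≤ (VR cf (1 / (m1 : ℝ)) * (((30 + k' : ℕ) : ℝ) * 2 ^ (30 + k'))) * Qp t c len xr (30 + k') :=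
          mul_le_mul_of_nonneg_right h1 h3
      _ = VR cf (1 / (m1 : ℝ)) * (((30 + k' : ℕ) : ℝ) * 2 ^ (30 + k') * Qp t c len xr (30 + k')) := by
          ring
      _ ≤ VR cf (1 / (m1 : ℝ)) * (30 * 2 ^ 30 * Qp t c len xr 30 * (1 / 2) ^ k') :=
          mul_le_mul_of_nonneg_left h2 hV0
      _ = _ := by ring
  have hTail : ∀ n, ∑ p ∈ range n, F (30 + p) ≤
      2 * (VR cf (1 / (m1 : ℝ)) * (30 * 2 ^ 30 * Qp t c len xr 30)) := by
    intro n
    refine (sum_le_sum fun p _ => hTl p).trans ?_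
    rw [← mul_sum]
    have hgg : ∑ k ∈ range n, (1 / 2 : ℝ) ^ k ≤ 2 := by
      have h := Summable.sum_le_tsum (f := fun k : ℕ => (1 / 2 : ℝ) ^ k) (range n)
        (fun _ _ => by positivity) (summable_geometric_of_lt_one (by norm_num) (by norm_num))
      rw [tsum_geometric_of_lt_one (by norm_num) (by norm_num)] at h
      refine h.trans ?_
      norm_num
    have h0 : 0 ≤ VR cf (1 / (m1 : ℝ)) * (30 * 2 ^ 30 * Qp t c len xr 30) :=
      mul_nonneg hV0 (mul_nonneg (by norm_num) (Qp_nonneg hxr0 30))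
    calc _ ≤ VR cf (1 / (m1 : ℝ)) * (30 * 2 ^ 30 * Qp t c len xr 30) * 2 :=
          mul_le_mul_of_nonneg_left hgg h0
      _ = _ := by ring
  have hAll : ∀ n, (∑ p ∈ range n, F p) * (S : ℕ) ≤ (mSg g u m1 cf X c len : ℕ) := by
    intro n
    have h1 : ∑ p ∈ range n, F p ≤ ∑ p ∈ range (30 + n), F p :=
      sum_le_sum_of_subset_of_nonneg (range_subset_range.2 (by omega)) fun p _ _ => hF0 p
    have h2 : (∑ p ∈ range (30 + n), F p) = ∑ p ∈ range 30, F p + ∑ p ∈ range n, F (30 + p) :=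
      sum_range_add _ _ _
    have h3 := hSum 30
    have h4 := hTail n
    have h5 : 2 * (VR cf (1 / (m1 : ℝ)) * (30 * 2 ^ 30 * Qp t c len xr 30)) * (S : ℕ) ≤
        ((2 * (VN (evC cf X) * (30 * 2 ^ 30) * qN t c len R 30) / qD c len R 30 + 1 : ℕ) : ℝ) := by
      refine le_trans ?_ (div_le_floor (2 * (VN (evC cf X) * (30 * 2 ^ 30) * qN t c len R 30))
        (qD c len R 30) (qD_pos o4))
      rw [hxr, Qp_eq o4]
      push_cast
      have hq : (0 : ℝ) ≤ 2 * (30 * 2 ^ 30) * ((qN t c len R 30 : ℝ) / (qD c len R 30 : ℝ)) := by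
        positivity
      calc _ = (VR cf (1 / (m1 : ℝ)) * (S : ℕ)) * (2 * (30 * 2 ^ 30) *
            ((qN t c len R 30 : ℝ) / (qD c len R 30 : ℝ))) := by ring
        _ ≤ (VN (evC cf X) : ℝ) * (2 * (30 * 2 ^ 30) *
            ((qN t c len R 30 : ℝ) / (qD c len R 30 : ℝ))) := mul_le_mul_of_nonneg_right hV hq
        _ = _ := by ring
    have hmA : (mSg g u m1 cf X c len : ℕ) = mG g (evC cf X) u X j t c len R 30 +
        (2 * (VN (evC cf X) * (30 * 2 ^ 30) * qN t c len R 30) / qD c len R 30 + 1) := by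
      unfold mSg
      rw [htt]
    rw [hmA]
    push_cast at h5 ⊢
    calc (∑ p ∈ range n, F p) * (S : ℕ) ≤ (∑ p ∈ range (30 + n), F p) * (S : ℕ) :=
          mul_le_mul_of_nonneg_right h1 hS.le
      _ = (∑ p ∈ range 30, F p) * (S : ℕ) + (∑ p ∈ range n, F (30 + p)) * (S : ℕ) := by
          rw [h2, add_mul]
      _ ≤ (mG g (evC cf X) u X j t c len R 30 : ℝ) +
          2 * (VR cf (1 / (m1 : ℝ)) * (30 * 2 ^ 30 * Qp t c len xr 30)) * (S : ℕ) :=
          add_le_add h3 (mul_le_mul_of_nonneg_right h4 hS.le)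
      _ ≤ _ := by linarith
  -- the series
  have hpart : ∀ n, ∑ p ∈ range n, e * k p ≤ ((mSg g u m1 cf X c len : ℕ) : ℝ) / ((S : ℕ) : ℝ) / den := by
    intro n
    rw [le_div_iff₀ hdR, le_div_iff₀ hS, sum_mul]
    refine le_trans ?_ (hAll n)
    exact mul_le_mul_of_nonneg_right (sum_le_sum fun p _ => hkF p) hS.le
  have hHI : HIx K m1 t cf.v.length (vC cf m1 den) (tauC cf m1 den) B x = ∑' p, k p := by
    unfold HIx
    rw [hlay]
  have h1 : e * HIx K m1 t cf.v.length (vC cf m1 den) (tauC cf m1 den) B x ≤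
      ((mSg g u m1 cf X c len : ℕ) : ℝ) / ((S : ℕ) : ℝ) / den := by
    rw [hHI, ← tsum_mul_left]
    by_cases hs : Summable fun p => e * k p
    · exact le_of_tendsto' hs.hasSum.tendsto_sum_nat hpart
    · rw [tsum_eq_zero_of_not_summable hs]
      positivity
  rw [le_div_iff₀ hdR, le_div_iff₀ hS] at h1
  exact h1

end Pool.JM.FR
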