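import Pool.Agent.Work.MP_46fa68_18.MoR2
import Pool.Agent.Work.MP_46fa68_18.MoS1

/-!
# The point checker with a fourth mode: row one by signed mode A, row two by a budget
-/

set_option autoImplicit false

open Finset

namespace Pool.NW

open Pool.NV Pool.OB Pool.JM Pool.JM.FR Pool.EGP

/-- row one in `[-ng, ps]`, row two by the budget `fr` -/
def tS (Fa Fk Fb : FD) (X : NI) (lo fr ps ng : N3) : Bool :=
  tst ⟨addS (pevI Fa.c0 X) ⟨⟨0, ps.a⟩, ⟨0, ng.a⟩⟩, addS (pevI Fk.c0 X) ⟨⟨0, ps.k⟩, ⟨0, ng.k⟩⟩,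
      addS (pevI Fb.c0 X) ⟨⟨0, ps.b⟩, ⟨0, ng.b⟩⟩⟩
    ⟨lo.a + fr.a, lo.k + fr.k, lo.b + fr.b⟩

theorem memS_sg {x : ℝ} {p n : ℕ} (h1 : x * ((S : ℕ) : ℝ) ≤ (p : ℝ)) (h2 : -(x * ((S : ℕ) : ℝ)) ≤ (n : ℝ)) :
    MemS x ⟨⟨0, p⟩, ⟨0, n⟩⟩ := by
  have hS := S_posR
  refine ⟨max x 0, max (-x) 0, ⟨?_, ?_⟩, ⟨?_, ?_⟩, ?_⟩
  · simp only [Nat.cast_zero]
    exact mul_nonneg (le_max_right _ _) hS.le
  · rcases le_total x 0 with h | h
    · rw [max_eq_right h, zero_mul]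
      exact Nat.cast_nonneg _
    · rw [max_eq_left h]
      exact h1
  · simp only [Nat.cast_zero]
    exact mul_nonneg (le_max_right _ _) hS.le
  · rcases le_total (-x) 0 with h | h
    · rw [max_eq_right h, zero_mul]
      exact Nat.cast_nonneg _
    · rw [max_eq_left h, neg_mul]
      exact h2
  · rcases le_total x 0 with h | h
    · rw [max_eq_right h, max_eq_left (by linarith)]
      ring
    · rw [max_eq_left h, max_eq_right (by linarith)]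
      ring

/-- signed bound of row one -/
def S1Ok (F : FD) (m t den k L : ℕ) (B : Finset ℕ) (p n : ℕ) : Prop :=
  xD F m t den (k + 2) B (k + 1 + L) * ((S : ℕ) : ℝ) ≤ (p : ℝ) ∧
    -(xD F m t den (k + 2) B (k + 1 + L) * ((S : ℕ) : ℝ)) ≤ (n : ℝ)

theorem sg_fun {F : FD} {m t den k L b s lo fr : ℕ} {B : Finset ℕ} (h : Two k L b s B)
    (hlo : |lD F m t den (k + 2) B (k + b)| * (S : ℕ) ≤ (lo : ℝ))
    (hfr : |xD F m t den (k + 2) B (k + b)| * (S : ℕ) ≤ (fr : ℝ)) :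
    |fD F m t den (k + 2) B - (pev F.c0 (1 / m) + xD F m t den (k + 2) B (k + 1 + L))| * (S : ℕ) ≤
      ((lo + fr : ℕ) : ℝ) := by
  have hS := S_posR
  rw [fD_two h, Nat.cast_add]
  have key : |pev F.c0 (1 / m) + (xD F m t den (k + 2) B (k + 1 + L) + xD F m t den (k + 2) B (k + b)) +
      lD F m t den (k + 2) B (k + b) - (pev F.c0 (1 / m) + xD F m t den (k + 2) B (k + 1 + L))| ≤
      |lD F m t den (k + 2) B (k + b)| + |xD F m t den (k + 2) B (k + b)| := by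
    refine le_trans (le_of_eq ?_) (abs_add_le _ _)
    congr 1
    ring
  have h3 := mul_le_mul_of_nonneg_right key hS.le
  rw [add_mul] at h3
  linarith

theorem tS_sound {Fa Fk Fb : FD} {X : NI} {m den ta tk tb k L b s : ℕ} {B : Finset ℕ} {lo fr ps ng : N3}
    (hx : Mem (1 / (m : ℝ)) X) (h : Two k L b s B) (hc : tS Fa Fk Fb X lo fr ps ng = true)
    (hlo : LoOk Fa Fk Fb m ta tk tb den k b B lo) (hfr : XOk Fa Fk Fb m ta tk tb den k (k + b) B fr)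
    (ha : S1Ok Fa m ta den k L B ps.a ng.a) (hk : S1Ok Fk m tk den k L B ps.k ng.k)
    (hb : S1Ok Fb m tb den k L B ps.b ng.b) : Cone Fa Fk Fb m ta tk tb den (k + 2) B := by
  unfold tS at hc
  have hcone := Rc_of_tst (v := ⟨pev Fa.c0 (1 / m) + xD Fa m ta den (k + 2) B (k + 1 + L),
      pev Fk.c0 (1 / m) + xD Fk m tk den (k + 2) B (k + 1 + L),
      pev Fb.c0 (1 / m) + xD Fb m tb den (k + 2) B (k + 1 + L)⟩)
    ⟨memS_add (memS_pev hx _) (memS_sg ha.1 ha.2), memS_add (memS_pev hx _) (memS_sg hk.1 hk.2),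
      memS_add (memS_pev hx _) (memS_sg hb.1 hb.2)⟩ hc
  exact hcone.cone (F := ⟨fD Fa m ta den (k + 2) B, fD Fk m tk den (k + 2) B,
    fD Fb m tb den (k + 2) B⟩)
    (sg_fun h hlo.1 hfr.1) (sg_fun h hlo.2.1 hfr.2.1) (sg_fun h hlo.2.2 hfr.2.2)

/-- the data with the signed bounds of the rows `≥ so` -/
structure DatS where
  Q : DatQ
  so : ℕ
  sp : List N3
  sn : List N3

/-- one pair -/
def chkPS (T : DatS) (X : NI) (m i1 i2 : ℕ) : Bool :=
  bif Nat.beq (T.Q.md i1 i2).md 3 then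
    Nat.ble i2 i1 || (Nat.ble (i1 + i2) (2 * T.Q.D.o) || (memR T.Q.D.R i1 i2 ||
      (((Nat.ble T.Q.fo i2 && Nat.ble (i2 + 1) (T.Q.fo + T.Q.f2.length)) &&
        (Nat.ble T.so i1 && Nat.ble (i1 + 1) (T.so + T.sp.length))) &&
      tS T.Q.D.a T.Q.D.k T.Q.D.b X
        (T.Q.lc (min (i1 + i2 - 2 * T.Q.D.o - 1) (m + 1 + T.Q.D.o - i2))) (T.Q.f2.getD (i2 - T.Q.fo) z3)
        (T.sp.getD (i1 - T.so) z3) (T.sn.getD (i1 - T.so) z3))))
  else chkPR T.Q X m i1 i2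

/-- one row -/
def chkRowS (T : DatS) (X : NI) (m i1 : ℕ) : Bool :=
  ((List.range (T.Q.D.J2.getD i1 0 + 1)).all fun i2 => chkPS T X m i1 i2) &&
  (bif Nat.ble T.Q.dro i1 then
    (Nat.ble (i1 + 1) (T.Q.dro + T.Q.dr.length) &&
      tD T.Q.D.a T.Q.D.k T.Q.D.b X (T.Q.lc (m + T.Q.D.o - T.Q.D.J2.getD i1 0))
        (T.Q.dr.getD (i1 - T.Q.dro) z3))
  else
    tF T.Q.D.a T.Q.D.k T.Q.D.b X (jj T.Q.D.o i1) (T.Q.D.J2.getD i1 0 + 1 - i1) (T.Q.rb.getD i1 100)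
      (T.Q.lc (m + T.Q.D.o - T.Q.D.J2.getD i1 0)) (T.Q.D.far.getD i1 z3))

/-- everything but the rows -/
def chkEndS (D : Dat) (X : NI) (m : ℕ) : Bool :=
  Nat.ble D.a.cf.v.length (D.o + 2) && (Nat.ble D.k.cf.v.length (D.o + 2) && (Nat.ble D.b.cf.v.length (D.o + 2) &&
    (tC D.a D.k D.b X (D.lows.getD (m - D.o) D.low) D.farn &&
      tD D.a D.k D.b X (D.lows.getD (m + D.o - D.n1) D.low) D.deep)))

def chkS (T : DatS) (X : NI) (m : ℕ) : Bool :=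
  chkEndS T.Q.D X m && (List.range T.Q.D.n1).all fun i1 => chkRowS T X m i1

/-- the budgets of one function -/
structure BudS (T : DatS) (F : FD) (sel : N3 → ℕ) (m t den : ℕ) : Prop where
  r : BudR T.Q F sel m t den
  s1 : ∀ (k L b s : ℕ) (B : Finset ℕ) (i1 : ℕ), Two k L b s B → L + b + s = 2 * m →
    (i1 : ℤ) = (m : ℤ) - L + T.Q.D.o → T.so ≤ i1 → i1 < T.so + T.sp.length →
    S1Ok F m t den k L B (sel (T.sp.getD (i1 - T.so) z3)) (sel (T.sn.getD (i1 - T.so) z3))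

/-- **THE MAIN THEOREM.** -/
theorem chkS_sound {T : DatS} {X : NI} {m den ta tk tb : ℕ} (hc : chkS T X m = true) (hm : 0 < m)
    (hden : 0 < den) (hx : Mem (1 / (m : ℝ)) X) (Ha : BudS T T.Q.D.a N3.a m ta den)
    (Hk : BudS T T.Q.D.k N3.k m tk den) (Hb : BudS T T.Q.D.b N3.b m tb den) {k L b s : ℕ} {B : Finset ℕ}
    (h : Two k L b s B) (hN : L + b + s = 2 * m)
    (hR : ∀ i1 i2 : ℕ, (i1 : ℤ) = (m : ℤ) - L + T.Q.D.o → (i2 : ℤ) = (m : ℤ) + 1 - b + T.Q.D.o →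
      memR T.Q.D.R i1 i2 = false) : Cone T.Q.D.a T.Q.D.k T.Q.D.b m ta tk tb den (k + 2) B := by
  have hbL := h.hbL
  have La : Lf T.Q.D.a m ta := ⟨Ha.r.q.bud.ht, Ha.r.q.bud.ht1⟩
  have Lk : Lf T.Q.D.k m tk := ⟨Hk.r.q.bud.ht, Hk.r.q.bud.ht1⟩
  have Lb : Lf T.Q.D.b m tb := ⟨Hb.r.q.bud.ht, Hb.r.q.bud.ht1⟩
  have hlc : ∀ c : ℕ, (s ≤ c ∨ b ≤ c) → LoOk T.Q.D.a T.Q.D.k T.Q.D.b m ta tk tb den k b B (T.Q.lc c) :=
    fun c hc => ⟨Ha.r.lc k L b s c B h hN hc, Hk.r.lc k L b s c B h hN hc, Hb.r.lc k L b s c B h hN hc⟩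
  unfold chkS at hc
  rw [Bool.and_eq_true] at hc
  obtain ⟨hend, hrows⟩ := hc
  unfold chkEndS at hend
  rw [Bool.and_eq_true, Bool.and_eq_true, Bool.and_eq_true, Bool.and_eq_true, Nat.ble_eq, Nat.ble_eq,
    Nat.ble_eq] at hend
  obtain ⟨la, lk, lb, hC, hD⟩ := hend
  rcases lt_or_ge ((m : ℤ) - L + T.Q.D.o) 0 with hneg | hpos
  · -- constant first row
    exact tC_sound hm hden hx La Lk Lb h (by omega) (by omega) (by omega) hC
      (hlc (m - T.Q.D.o) (Or.inr (by omega)))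
      ⟨Ha.r.q.bud.farn k L b s B h hN hneg, Hk.r.q.bud.farn k L b s B h hN hneg,
        Hb.r.q.bud.farn k L b s B h hN hneg⟩
  rcases lt_or_ge ((m : ℤ) - L + T.Q.D.o) (T.Q.D.n1 : ℤ) with hlt | hge
  swap
  · -- far first bead
    exact tD_sound hx h hD (hlc _ (Or.inr (by omega)))
      ⟨Ha.r.q.bud.deep k L b s B h hN hge, Hk.r.q.bud.deep k L b s B h hN hge,
        Hb.r.q.bud.deep k L b s B h hN hge⟩
  -- a row
  obtain ⟨i1, hi1⟩ : ∃ i1 : ℕ, (i1 : ℤ) = (m : ℤ) - L + T.Q.D.o :=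
    ⟨((m : ℤ) - L + T.Q.D.o).toNat, by omega⟩
  obtain ⟨i2, hi2⟩ : ∃ i2 : ℕ, (i2 : ℤ) = (m : ℤ) + 1 - b + T.Q.D.o :=
    ⟨((m : ℤ) + 1 - b + T.Q.D.o).toNat, by omega⟩
  have hi1n : i1 < T.Q.D.n1 := by omega
  have hrow := all_range hrows hi1n
  unfold chkRowS at hrow
  rw [Bool.and_eq_true] at hrow
  obtain ⟨hpairs, hrest⟩ := hrow
  have j1e : jj T.Q.D.o i1 = (m : ℤ) - L := by unfold jj; omega
  have j2e : jj T.Q.D.o i2 = (m : ℤ) + 1 - b := by unfold jj; omega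
  rcases Nat.lt_or_ge i2 (T.Q.D.J2.getD i1 0 + 1) with hJ | hJ
  · -- pair class
    have hp := all_range hpairs hJ
    unfold chkPS at hp
    have es : i1 + i2 - 2 * T.Q.D.o - 1 = s := by omega
    have eb : m + 1 + T.Q.D.o - i2 = b := by omega
    have eD : i2 - i1 = L + 1 - b := by omega
    have hlows := hlc (min s b) (by omega)
    cases h3 : Nat.beq (T.Q.md i1 i2).md 3
    · rw [h3, cond_false] at hp
      unfold chkPR at hp
      rw [Bool.or_eq_true, Bool.or_eq_true, Bool.or_eq_true, Nat.ble_eq, Nat.ble_eq,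
        hR i1 i2 hi1 hi2] at hp
      rcases hp with hp | hp | hp | hp
      · omega
      · omega
      · exact absurd hp (by simp)
      rw [es, eb, eD, j1e, j2e] at hp
      cases h0 : Nat.beq (T.Q.md i1 i2).md 0
      · rw [h0, cond_false] at hp
        cases h1 : Nat.beq (T.Q.md i1 i2).md 1
        · rw [h1, cond_false, Bool.and_eq_true, Bool.and_eq_true, Nat.ble_eq, Nat.ble_eq] at hp
          obtain ⟨⟨f1, f2⟩, hq⟩ := hp
          exact tQ_sound hm hden hx La Lk Lb h hN hq hlows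
            ⟨Ha.r.q.f2 k L b s B i2 h hN hi2 f1 (by omega), Hk.r.q.f2 k L b s B i2 h hN hi2 f1 (by omega),
              Hb.r.q.f2 k L b s B i2 h hN hi2 f1 (by omega)⟩
        · rw [h1, cond_true] at hp
          exact tZ_sound hm hden hx La Lk Lb h hN hp hlows
      · rw [h0, cond_true] at hp
        exact tP_sound hm hden hx La Lk Lb h hN hp hlows
    · rw [h3, cond_true] at hp
      rw [Bool.or_eq_true, Bool.or_eq_true, Bool.or_eq_true, Nat.ble_eq, Nat.ble_eq,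
        hR i1 i2 hi1 hi2] at hp
      rcases hp with hp | hp | hp | hp
      · omega
      · omega
      · exact absurd hp (by simp)
      rw [es, eb, Bool.and_eq_true, Bool.and_eq_true, Bool.and_eq_true, Bool.and_eq_true, Nat.ble_eq,
        Nat.ble_eq, Nat.ble_eq, Nat.ble_eq] at hp
      obtain ⟨⟨⟨f1, f2⟩, f3, f4⟩, hq⟩ := hp
      exact tS_sound hx h hq hlows
        ⟨Ha.r.q.f2 k L b s B i2 h hN hi2 f1 (by omega), Hk.r.q.f2 k L b s B i2 h hN hi2 f1 (by omega),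
          Hb.r.q.f2 k L b s B i2 h hN hi2 f1 (by omega)⟩
        (Ha.s1 k L b s B i1 h hN hi1 f3 (by omega)) (Hk.s1 k L b s B i1 h hN hi1 f3 (by omega))
        (Hb.s1 k L b s B i1 h hN hi1 f3 (by omega))
  · -- the rest of a row
    have hJ' : ((T.Q.D.J2.getD i1 0 : ℕ) : ℤ) < (m : ℤ) + 1 - b + T.Q.D.o := by omega
    have hDD : T.Q.D.J2.getD i1 0 + 1 - i1 ≤ L + 1 - b := by omega
    have hlr := hlc (m + T.Q.D.o - T.Q.D.J2.getD i1 0) (Or.inr (by omega))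
    rw [j1e] at hrest
    cases h0 : Nat.ble T.Q.dro i1
    · rw [h0, cond_false] at hrest
      exact tF_sound hm hden hx La Lk Lb h hN hDD hrest hlr
        ⟨Ha.r.q.bud.far k L b s B i1 h hN hi1 hi1n hJ', Hk.r.q.bud.far k L b s B i1 h hN hi1 hi1n hJ',
          Hb.r.q.bud.far k L b s B i1 h hN hi1 hi1n hJ'⟩
    · rw [h0, cond_true, Bool.and_eq_true, Nat.ble_eq] at hrest
      obtain ⟨f1, hq⟩ := hrest
      rw [Nat.ble_eq] at h0
      exact tD_sound hx h hq hlr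
        ⟨Ha.r.q.dr k L b s B i1 h hN hi1 hJ' h0 (by omega), Hk.r.q.dr k L b s B i1 h hN hi1 hJ' h0 (by omega),
          Hb.r.q.dr k L b s B i1 h hN hi1 hJ' h0 (by omega)⟩

/-- all the numbers of `T` for the function `F` at the point `m` -/
def okBudS (T : DatS) (F : FD) (sel : N3 → ℕ) (m nC : ℕ) (X : NI) : Bool :=
  okBudA T.Q F sel m nC X &&
    (List.range T.sp.length).all fun n =>
      Pool.JM.FR.okA F.u m X 0 (m + T.Q.D.o - (T.so + n)) &&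
        (Nat.ble (mSg posS F.u m F.cf X 0 (m + T.Q.D.o - (T.so + n))) (sel (T.sp.getD n z3)) &&
          Nat.ble (mSg ngS F.u m F.cf X 0 (m + T.Q.D.o - (T.so + n))) (sel (T.sn.getD n z3)))

/-- **the budgets** -/
theorem budS_of {T : DatS} {F : FD} {sel : N3 → ℕ} {m nC : ℕ} {X : NI} (hm : 0 < m)
    (hok : okBudS T F sel m nC X = true) {den t : ℕ} (hden : 0 < den) (ht : (t : ℤ) + F.u = (m : ℤ))
    (hX : Mem (1 / (m : ℝ)) X) : BudS T F sel m t den := by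
  unfold okBudS at hok
  rw [Bool.and_eq_true] at hok
  obtain ⟨h1, h2⟩ := hok
  refine ⟨budR_of h1 hden ht hX, ?_⟩
  intro k L b s B i1 hT hN hi1 g1 g2
  obtain ⟨n, rfl⟩ : ∃ n, i1 = T.so + n := ⟨i1 - T.so, by omega⟩
  rw [Nat.add_sub_cancel_left]
  have h := all_range h2 (show n < T.sp.length by omega)
  have eL : m + T.Q.D.o - (T.so + n) = L := by omega
  rw [eL, Bool.and_eq_true, Bool.and_eq_true, Nat.ble_eq, Nat.ble_eq] at h
  obtain ⟨o1, o2, o3⟩ := h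
  have r1 := mode_G (g := posS) (e := 1) (by norm_num) (fun x Y hY => le_posS hY) rfl hm ht hden hX o1
    (Two.mem_Lv hT hN) hT.h1 (Two.up1 hT) (Two.rl1 hT) (cf := F.cf)
  have r2 := mode_G (g := ngS) (e := -1) (by norm_num) (fun x Y hY => le_ngS hY) rfl hm ht hden hX o1
    (Two.mem_Lv hT hN) hT.h1 (Two.up1 hT) (Two.rl1 hT) (cf := F.cf)
  have c2 : ((mSg posS F.u m F.cf X 0 L : ℕ) : ℝ) ≤ ((sel (T.sp.getD n z3) : ℕ) : ℝ) := by
    exact_mod_cast o2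
  have c3 : ((mSg ngS F.u m F.cf X 0 L : ℕ) : ℝ) ≤ ((sel (T.sn.getD n z3) : ℕ) : ℝ) := by
    exact_mod_cast o3
  constructor
  · unfold xD
    refine le_trans (le_of_eq ?_) (r1.trans c2)
    ring
  · unfold xD
    refine le_trans (le_of_eq ?_) (r2.trans c3)
    ring

/-- **the cone at the point `m`** -/
theorem coneS_of {T : DatS} {F1 F2 F3 : FD} {J : List (ℤ × ℤ)} {m t1 t2 t3 nC : ℕ} (hm : 2 ≤ m)
    (ha : T.Q.D.a = F1) (hk : T.Q.D.k = F2) (hb : T.Q.D.b = F3) (ho : T.Q.D.o = 12)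
    (hR : T.Q.D.R = toR 12 J)
    (hJ : ∀ p ∈ J, 0 ≤ p.1 + ((12 : ℕ) : ℤ) ∧ 0 ≤ p.2 + ((12 : ℕ) : ℤ))
    (hrun : chkS T (rat 1 m) m = true)
    (h1 : (t1 : ℤ) + F1.u = m) (h2 : (t2 : ℤ) + F2.u = m) (h3 : (t3 : ℤ) + F3.u = m)
    (oA : okBudS T F1 N3.a m nC (rat 1 m) = true) (oK : okBudS T F2 N3.k m nC (rat 1 m) = true)
    (oB : okBudS T F3 N3.b m nC (rat 1 m) = true) {k L b s : ℕ} {B : Finset ℕ} (h : Two k L b s B)
    (hN : L + b + s = 2 * m) (hn : ((m : ℤ) - L, (m : ℤ) + 1 - b) ∉ J) :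
    Cone F1 F2 F3 m t1 t2 t3 1000 (k + 2) B := by
  have hx := mem_pt (show 0 < m by omega)
  have Ha := budS_of (den := 1000) (by omega) oA (by norm_num) h1 hx
  have Hk := budS_of (den := 1000) (by omega) oK (by norm_num) h2 hx
  have Hb := budS_of (den := 1000) (by omega) oB (by norm_num) h3 hx
  have hc := chkS_sound (ta := t1) (tk := t2) (tb := t3) hrun (by omega)
    (show 0 < 1000 by norm_num) hx (by rw [ha]; exact Ha) (by rw [hk]; exact Hk) (by rw [hb]; exact Hb)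
    h hN (by
      intro i1 i2 e1 e2
      rw [hR]
      rw [ho] at e1 e2
      exact memR_of hJ e1 e2 hn)
  rw [ha, hk, hb] at hc
  exact hc

end Pool.NW
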